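import Pool.Agent.Lib.MP_0da53c_lc.Forth

/-!
Formulas expressing badness and `An`, and ultrapowers: every model of `TM` has a rich
ultrapower.
-/

namespace Pool.Agent.Lib.MP_0da53c_lc

open FirstOrder FirstOrder.Language

universe u v

/-- Application of a unary function symbol to a term. -/
def tfn {α : Type*} (f : F1) (t : Lg.Term α) : Lg.Term α := Term.func f.toF ![t]

/-- Atomic formula from a unary relation symbol. -/
def frl {α : Type*} {n : ℕ} (r : R1) (t : Lg.Term (α ⊕ Fin n)) : Lg.BoundedFormula α n :=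
  Relations.boundedFormula r.toR ![t]

section
variable {M : Type*} [Lg.Structure M] {α : Type*}

@[simp] theorem realize_tfn (f : F1) (t : Lg.Term α) (v : α → M) :
    (tfn f t).realize v = fn f (t.realize v) := by
  unfold tfn fn
  rw [Term.realize_func]
  congr 1
  funext i
  fin_cases i
  rfl

@[simp] theorem realize_frl {n : ℕ} (r : R1) (t : Lg.Term (α ⊕ Fin n)) (v : α → M)
    (xs : Fin n → M) : (frl r t).Realize v xs ↔ rl r (t.realize (Sum.elim v xs)) := by
  unfold frl rl
  rw [BoundedFormula.realize_rel]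
  have : (fun i => ((![t] : Fin 1 → _) i).realize (Sum.elim v xs)) =
      ![t.realize (Sum.elim v xs)] := by
    funext i
    fin_cases i
    rfl
  rw [this]

/-- Formula for `badk`. -/
def bf : ℕ → ℕ → ℕ → ∀ j : ℕ, Lg.BoundedFormula α (j + 1)
  | 0, n, d, j => frl (.B n d) (Term.var (Sum.inr (Fin.last j)))
  | k + 1, n, d, j =>
    (((frl (.X n (d + 1)) (Term.var (Sum.inr (Fin.last (j + 1))))) ⊓
      (Term.bdEqual (tfn (.p n (d + 1)) (Term.var (Sum.inr (Fin.last (j + 1)))))
        (Term.var (Sum.inr (Fin.last j).castSucc)))).imp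
      (bf k n (d + 1) (j + 1)).not).all

theorem realize_bf (k n d j : ℕ) (v : α → M) (xs : Fin (j + 1) → M) :
    (bf k n d j).Realize v xs ↔ badk k n d (xs (Fin.last j)) := by
  induction k generalizing d j with
  | zero => simp [bf, badk]
  | succ k ih =>
    simp only [bf, badk, BoundedFormula.realize_all, BoundedFormula.realize_imp,
      BoundedFormula.realize_inf, realize_frl, Term.realize_var, Sum.elim_inr,
      BoundedFormula.realize_bdEqual, realize_tfn, BoundedFormula.realize_not, ih, Fin.snoc_last,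
      Fin.snoc_castSucc, and_imp]

/-- Formula for `An`. -/
def aF (n : ℕ) (a : α) : Lg.Formula α :=
  (((frl (.X n 0) (Term.var (Sum.inr (Fin.last 0)))) ⊓
      (Term.bdEqual (tfn (.p n 0) (Term.var (Sum.inr (Fin.last 0))))
        (Term.var (Sum.inl a)))) ⊓ (bf n n 0 0) : Lg.BoundedFormula α 1).ex

theorem realize_aF (n : ℕ) (a : α) (v : α → M) : (aF n a).Realize v ↔ An n (v a) := by
  unfold aF An Bad Formula.Realize
  simp only [BoundedFormula.realize_ex, BoundedFormula.realize_inf, realize_frl,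
    Term.realize_var, Sum.elim_inr, Sum.elim_inl, BoundedFormula.realize_bdEqual, realize_tfn,
    realize_bf, Fin.snoc_last, and_assoc, Nat.sub_zero]

/-- Formula for `Bad`. -/
def badF (n d : ℕ) (a : α) : Lg.Formula α :=
  ((Term.bdEqual (Term.var (Sum.inr (Fin.last 0))) (Term.var (Sum.inl a))) ⊓
    (bf (n - d) n d 0) : Lg.BoundedFormula α 1).ex

theorem realize_badF (n d : ℕ) (a : α) (v : α → M) : (badF n d a).Realize v ↔ Bad n d (v a) := by
  unfold badF Bad Formula.Realize
  simp only [BoundedFormula.realize_ex, BoundedFormula.realize_inf,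
    Term.realize_var, Sum.elim_inr, Sum.elim_inl, BoundedFormula.realize_bdEqual,
    realize_bf, Fin.snoc_last, exists_eq_left]

end

/-! ### Ultrapowers -/

/-- The ultrapower along a nonprincipal ultrafilter on `ℕ`. -/
abbrev Ult (N : Type u) : Type u :=
  ((Filter.hyperfilter ℕ : Ultrafilter ℕ) : Filter ℕ).Product fun _ => N

/-- Class of a sequence. -/
noncomputable def cl {N : Type u} (x : ℕ → N) : Ult N := (x : Ult N)

theorem cl_eq {N : Type u} (x y : ℕ → N) :
    cl x = cl y ↔ ∀ᶠ i in (Filter.hyperfilter ℕ : Filter ℕ), x i = y i :=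
  Quotient.eq''

theorem cl_surj {N : Type u} (x : Ult N) : ∃ y : ℕ → N, cl y = x := Quotient.exists_rep x

section
variable {N : Type u} [Lg.Structure N]

theorem fn_cl (f : F1) (x : ℕ → N) : fn f (cl x) = cl fun i => fn f (x i) := by
  have h := Ultraproduct.funMap_cast (M := fun _ : ℕ => N)
    (u := (Filter.hyperfilter ℕ : Ultrafilter ℕ)) f.toF ![x]
  have e1 : (fun i => (((![x] : Fin 1 → ℕ → N) i : ℕ → N) : Ult N)) = ![cl x] := by
    funext i
    fin_cases i
    rfl
  have e2 : (fun a : ℕ => Structure.funMap f.toF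
      fun i => ((![x] : Fin 1 → ℕ → N) i a)) = fun i => fn f (x i) := by
    funext a
    unfold fn
    congr 1
    funext i
    fin_cases i
    rfl
  rw [e1, e2] at h
  exact h

theorem rl_cl (r : R1) (x : ℕ → N) :
    rl r (cl x) ↔ ∀ᶠ i in (Filter.hyperfilter ℕ : Filter ℕ), rl r (x i) := by
  by_cases hN : Nonempty N
  · have h := Ultraproduct.realize_formula_cast (M := fun _ : ℕ => N)
      (u := (Filter.hyperfilter ℕ : Ultrafilter ℕ)) (L := Lg) (β := Unit)
      (frl (α := Unit) (n := 0) r (Term.var (Sum.inl ()))) (fun _ => x)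
    unfold Formula.Realize at h
    simp only [realize_frl, Term.realize_var, Sum.elim_inl] at h
    exact h
  · exact absurd ⟨x 0⟩ hN

theorem Bad_cl (n d : ℕ) (x : ℕ → N) :
    Bad n d (cl x) ↔ ∀ᶠ i in (Filter.hyperfilter ℕ : Filter ℕ), Bad n d (x i) := by
  have hN : Nonempty N := ⟨x 0⟩
  have h := Ultraproduct.realize_formula_cast (M := fun _ : ℕ => N)
    (u := (Filter.hyperfilter ℕ : Ultrafilter ℕ)) (L := Lg) (β := Unit)
    (badF n d ()) (fun _ => x)
  simp only [realize_badF] at h
  exact h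

theorem An_cl (n : ℕ) (x : ℕ → N) :
    An n (cl x) ↔ ∀ᶠ i in (Filter.hyperfilter ℕ : Filter ℕ), An n (x i) := by
  have hN : Nonempty N := ⟨x 0⟩
  have h := Ultraproduct.realize_formula_cast (M := fun _ : ℕ => N)
    (u := (Filter.hyperfilter ℕ : Ultrafilter ℕ)) (L := Lg) (β := Unit)
    (aF n ()) (fun _ => x)
  simp only [realize_aF] at h
  exact h

omit [Lg.Structure N] in
/-- Saturation of ultrapowers, avoiding a countable set. -/
theorem sat {C : Set (Ult N)} (hC : C.Countable) (P : ℕ → ℕ → N → Prop)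
    (h : ∀ᶠ i in (Filter.hyperfilter ℕ : Filter ℕ), ∀ F : Set N, F.Finite →
      ∃ z, z ∉ F ∧ ∀ j ≤ i, P i j z) :
    ∃ x : ℕ → N, cl x ∉ C ∧ ∀ j, ∀ᶠ i in (Filter.hyperfilter ℕ : Filter ℕ), P i j (x i) := by
  classical
  have hN : Nonempty N := by
    obtain ⟨i, hi⟩ := h.exists
    obtain ⟨z, -⟩ := hi ∅ Set.finite_empty
    exact ⟨z⟩
  have hev : ∀ j : ℕ, ∀ᶠ i in (Filter.hyperfilter ℕ : Filter ℕ), j ≤ i := fun j =>
    Nat.hyperfilter_le_atTop (Filter.eventually_ge_atTop j)
  obtain ⟨c, hc⟩ : ∃ c : ℕ → Ult N, C ⊆ Set.range c := by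
    rcases C.eq_empty_or_nonempty with hCe | hCn
    · exact ⟨fun _ => cl fun _ => Classical.choice hN, by simp [hCe]⟩
    · obtain ⟨c, hc⟩ := hC.exists_eq_range hCn
      exact ⟨c, hc.subset⟩
  choose r hr using fun j => cl_surj (c j)
  have hch : ∀ i : ℕ, ∃ z : N, (∀ F : Set N, F.Finite → ∃ z, z ∉ F ∧ ∀ j ≤ i, P i j z) →
      z ∉ ((fun j => r j i) '' Set.Iic i) ∧ ∀ j ≤ i, P i j z := by
    intro i
    by_cases hi : ∀ F : Set N, F.Finite → ∃ z, z ∉ F ∧ ∀ j ≤ i, P i j z
    · obtain ⟨z, hz⟩ := hi ((fun j => r j i) '' Set.Iic i) ((Set.finite_Iic i).image _)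
      exact ⟨z, fun _ => hz⟩
    · exact ⟨Classical.choice hN, fun h => absurd h hi⟩
  choose x hx using hch
  refine ⟨x, ?_, ?_⟩
  · intro hxC
    obtain ⟨j, hj⟩ := hc hxC
    rw [← hr j, cl_eq] at hj
    obtain ⟨i, hi1, hi2, hi3⟩ := (h.and (hj.and (hev j))).exists
    exact (hx i hi1).1 ⟨j, hi3, hi2⟩
  · intro j
    filter_upwards [h, hev j] with i hi hij
    exact (hx i hi).2 j hij

end

namespace TM
variable {N : Type u} [Lg.Structure N] (T : TM N)
include T

theorem orbit_inf {n d : ℕ} {x : N} (hx : pX n d x) {F : Set N} (hF : F.Finite) :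
    ∃ k : ℤ, sg n d (Finsupp.single d k) x ∉ F := by
  have hinj : Function.Injective fun k : ℤ => sg n d (Finsupp.single d k) x := by
    intro k k' h
    have := (T.g_eq_iff hx).1 h d le_rfl
    simpa using this
  by_contra hc
  push Not at hc
  exact (Set.infinite_range_of_injective hinj) (hF.subset (by rintro _ ⟨k, rfl⟩; exact hc k))

theorem copy_inf {n d : ℕ} {x : N} (hx : pX n d x) {F : Set N} (hF : F.Finite) (b : ℕ) :
    ∃ i, b < i ∧ ss n d i x ∉ F := by
  have hinj : Function.Injective fun k : ℕ => ss n d (b + 1 + k) x := by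
    intro k k' h
    have h1 := T.s_Im n d (b + 1 + k) x hx
    have h2 := T.s_Im n d (b + 1 + k') x hx
    simp only at h
    rw [h] at h1
    have := T.Im_u _ _ _ _ _ h1 h2
    omega
  by_contra hc
  push Not at hc
  exact (Set.infinite_range_of_injective hinj)
    (hF.subset (by rintro _ ⟨k, rfl⟩; exact hc _ (by omega)))

theorem name_inf (k : ℕ) {F : Set N} (hF : F.Finite) (b : ℕ) :
    ∃ i, b < i ∧ ∃ a, pKS k i a ∧ a ∉ F := by
  choose a ha using fun i => T.KS_ex k i
  have hinj : Function.Injective fun i : ℕ => a (b + 1 + i) := by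
    intro i i' h
    have h1 := ha (b + 1 + i)
    have h2 := ha (b + 1 + i')
    simp only at h
    rw [h] at h1
    have := T.KS_dis _ _ _ _ _ h1 h2
    omega
  by_contra hc
  push Not at hc
  exact (Set.infinite_range_of_injective hinj)
    (hF.subset (by rintro _ ⟨i, rfl⟩; exact hc _ (by omega) _ (ha _)))

/-- Ultrapowers are rich. -/
theorem rich : Rich (Ult N) := by
  have hev : ∀ j : ℕ, ∀ᶠ i in (Filter.hyperfilter ℕ : Filter ℕ), j ≤ i := fun j =>
    Nat.hyperfilter_le_atTop (Filter.eventually_ge_atTop j)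
  refine ⟨?_, ?_, ?_⟩
  · intro C hC
    obtain ⟨x, hxC, hx⟩ := sat hC (fun _ j z => ¬ pS z ∧ ∀ n d, n ≤ j → d ≤ j → ¬ pX n d (z : N))
      (by
        refine Filter.Eventually.of_forall fun i F hF => ?_
        obtain ⟨a, ha⟩ := T.KS_ex 0 0
        obtain ⟨y, hy, -, -⟩ := T.U_ex0 (i + 1) a (T.KS_S _ _ _ ha)
        obtain ⟨k, hk⟩ := T.orbit_inf hy hF
        have hk' := T.g_X _ _ (Finsupp.single 0 k) _ hy
        refine ⟨_, hk, fun j hj => ⟨fun hc => T.sS _ _ _ hc hk', fun n d hn hd hc => ?_⟩⟩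
        have := (T.sX _ _ _ _ _ hc hk').1
        omega)
    refine ⟨cl x, hxC, ?_, ?_⟩
    · intro n d hc
      change rl _ _ at hc
      rw [rl_cl] at hc
      obtain ⟨i, hi1, hi2⟩ := ((hx (max n d)).and hc).exists
      exact hi1.2 n d (le_max_left _ _) (le_max_right _ _) hi2
    · intro hc
      change rl _ _ at hc
      rw [rl_cl] at hc
      obtain ⟨i, hi1, hi2⟩ := ((hx 0).and hc).exists
      exact hi1.1 hi2
  · intro κ C hC
    obtain ⟨x, hxC, hx⟩ := sat hC (fun _ j z => pS (z : N) ∧ (∀ k ≤ j, ∀ i ≤ j, ¬ pKS k i z) ∧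
        ∀ n ≤ j, (An n z ↔ κ ≤ n))
      (by
        refine Filter.Eventually.of_forall fun i F hF => ?_
        obtain ⟨k, hk⟩ : ∃ k : ℕ, ∀ n ≤ i, (k ≤ n ↔ κ ≤ n) := by
          cases κ with
          | top => exact ⟨i + 1, fun n hn => iff_of_false (by omega) (by simp)⟩
          | coe k => exact ⟨k, fun n _ => by rw [Nat.cast_le]⟩
        obtain ⟨i', hi', a, ha, haF⟩ := T.name_inf k hF i
        refine ⟨a, haF, fun j hj => ⟨T.KS_S _ _ _ ha, ?_, ?_⟩⟩
        · intro k1 _ i1 hi1 hc
          have := (T.KS_dis _ _ _ _ _ hc ha).2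
          omega
        · intro n hn
          rw [T.KS_A ha]
          exact hk n (by omega))
    refine ⟨cl x, hxC, ?_, ?_, ?_⟩
    · change rl _ _
      rw [rl_cl]
      exact (hx 0).mono fun i h => h.1
    · intro k i hc
      change rl _ _ at hc
      rw [rl_cl] at hc
      obtain ⟨j, hj1, hj2⟩ := ((hx (max k i)).and hc).exists
      exact hj1.2.1 k (le_max_left _ _) i (le_max_right _ _) hj2
    · intro n
      rw [An_cl]
      constructor
      · intro h
        obtain ⟨j, hj1, hj2⟩ := ((hx n).and h).exists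
        exact (hj1.2.2 n le_rfl).1 hj2
      · intro h
        exact (hx n).mono fun i hi => (hi.2.2 n le_rfl).2 h
  · intro n d y C hC hy hpure
    obtain ⟨y, rfl⟩ := cl_surj y
    have hy' := hy
    change rl _ _ at hy'
    rw [rl_cl] at hy'
    by_cases hp : Pure n d (cl y)
    · obtain ⟨x, hxC, hx⟩ := sat hC
        (fun i _ z => ∃ k : ℤ, (z : N) = sg n d (Finsupp.single d k) (y i)) (by
          refine hy'.mono fun i hi F hF => ?_
          obtain ⟨k, hk⟩ := T.orbit_inf hi hF
          exact ⟨_, hk, fun _ _ => ⟨k, rfl⟩⟩)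
      have hx0 := hx 0
      refine ⟨cl x, hxC, ?_, ?_, ?_, ?_⟩
      · change rl _ _
        rw [rl_cl]
        filter_upwards [hx0, hy'] with i hi hyi
        obtain ⟨k, hk⟩ := hi
        rw [hk]
        exact T.g_X _ _ _ _ hyi
      · change fn _ _ = fn _ _
        rw [fn_cl, fn_cl, cl_eq]
        filter_upwards [hx0, hy'] with i hi hyi
        obtain ⟨k, hk⟩ := hi
        rw [hk]
        exact T.sp_single hyi k
      · rintro m j rfl hc
        apply hp m j rfl
        change rl _ _ at hc ⊢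
        rw [rl_cl] at hc ⊢
        filter_upwards [hx0, hc] with i hi hci
        obtain ⟨k, hk⟩ := hi
        rw [hk] at hci
        exact (T.Im_g_iff _).1 hci
      · rw [Bad_cl, Bad_cl]
        apply Filter.eventually_congr
        filter_upwards [hx0, hy'] with i hi hyi
        obtain ⟨k, hk⟩ := hi
        rw [hk]
        exact T.Bad_g _ hyi
    · have hd : d = 0 := by
        by_contra hd
        exact hp (hpure hd)
      subst hd
      unfold Pure at hp
      push Not at hp
      obtain ⟨m, i0, rfl, hi0⟩ := hp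
      change rl _ _ at hi0
      rw [rl_cl] at hi0
      obtain ⟨x, hxC, hx⟩ := sat hC
        (fun i _ z => ∃ j, i < j ∧ (z : N) = ss m 0 j (sd m 0 i0 (y i))) (by
          refine hi0.mono fun i hi F hF => ?_
          obtain ⟨j, hj1, hj2⟩ := T.copy_inf (T.Im_d _ _ _ _ hi).1 hF i
          exact ⟨_, hj2, fun _ _ => ⟨j, hj1, rfl⟩⟩)
      have hx0 := hx 0
      refine ⟨cl x, hxC, ?_, ?_, ?_, ?_⟩
      · change rl _ _
        rw [rl_cl]
        filter_upwards [hx0, hi0] with i hi hyi
        obtain ⟨j, -, hk⟩ := hi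
        rw [hk]
        exact T.s_X _ _ _ _ (T.Im_d _ _ _ _ hyi).1
      · change fn _ _ = fn _ _
        rw [fn_cl, fn_cl, cl_eq]
        filter_upwards [hx0, hi0] with i hi hyi
        obtain ⟨j, -, hk⟩ := hi
        obtain ⟨h1, h2⟩ := T.Im_d _ _ _ _ hyi
        have h3 := T.s_p0 m j _ h1
        have h4 := T.s_p0 m i0 _ h1
        rw [h2] at h4
        rw [hk]
        exact h3.trans h4.symm
      · rintro m' j hm hc
        obtain rfl : m = m' := by omega
        change rl _ _ at hc
        rw [rl_cl] at hc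
        obtain ⟨i, hi1, ⟨j', hj', hk⟩, hi3, hi4⟩ := (hc.and (hx0.and ((hev j).and hi0))).exists
        rw [hk] at hi1
        have := T.Im_u _ _ _ _ _ hi1 (T.s_Im m 0 j' _ (T.Im_d _ _ _ _ hi4).1)
        omega
      · rw [Bad_cl, Bad_cl]
        apply Filter.eventually_congr
        filter_upwards [hx0, hi0] with i hi hyi
        obtain ⟨j, -, hk⟩ := hi
        obtain ⟨h1, h2⟩ := T.Im_d _ _ _ _ hyi
        have h3 := T.Bad_s i0 h1
        rw [h2] at h3
        rw [hk, T.Bad_s j h1, h3]

end TM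

end Pool.Agent.Lib.MP_0da53c_lc
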