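import Pool.Agent.Lib.MP_0da53c_lc.Std
import Pool.Agent.Lib.MP_0da53c_lc.Fml

/-!
The theory: all `∀_2`-sentences true in the standard model.  Its models satisfy `TM`.
-/

namespace Pool.Agent.Lib.MP_0da53c_lc

open FirstOrder FirstOrder.Language

/-- The theory: all `∀_2`-sentences true in the standard model. -/
def Th : Lg.Theory := {φ | Q false 2 0 φ ∧ φ.Realize M0}

/-- Terms in three variables. -/
structure Tm where
  v : Fin 3
  w : List F1

/-- Application of a function symbol. -/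
def Tm.ap (f : F1) (t : Tm) : Tm := ⟨t.v, f :: t.w⟩

/-- Quantifier-free formulas in three variables. -/
inductive Fm : Type
  | prop (c : Prop)
  | eq (s t : Tm)
  | rel (r : R1) (t : Tm)
  | not (a : Fm)
  | imp (a b : Fm)
  | and (a b : Fm)
  | iff (a b : Fm)

section
variable {M : Type*} [Lg.Structure M]

def Tm.ev (e : Fin 3 → M) (t : Tm) : M := t.w.foldr fn (e t.v)

def Fm.ev (e : Fin 3 → M) : Fm → Prop
  | .prop c => c
  | .eq s t => s.ev e = t.ev e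
  | .rel r t => rl r (t.ev e)
  | .not a => ¬ a.ev e
  | .imp a b => a.ev e → b.ev e
  | .and a b => a.ev e ∧ b.ev e
  | .iff a b => a.ev e ↔ b.ev e

def Tm.tm (t : Tm) : Lg.Term (Empty ⊕ Fin 3) := t.w.foldr tfn (Term.var (Sum.inr t.v))

open Classical in
noncomputable def Fm.bf : Fm → Lg.BoundedFormula Empty 3
  | .prop c => if c then ⊤ else ⊥
  | .eq s t => Term.bdEqual s.tm t.tm
  | .rel r t => frl r t.tm
  | .not a => a.bf.not
  | .imp a b => a.bf.imp b.bf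
  | .and a b => a.bf ⊓ b.bf
  | .iff a b => (a.bf.imp b.bf) ⊓ (b.bf.imp a.bf)

theorem Tm.realize (t : Tm) (v : Empty → M) (xs : Fin 3 → M) :
    t.tm.realize (Sum.elim v xs) = t.ev xs := by
  obtain ⟨i, w⟩ := t
  unfold Tm.tm Tm.ev
  simp only
  induction w with
  | nil => simp
  | cons f w ih => simp [ih]

theorem Fm.realize (φ : Fm) (v : Empty → M) (xs : Fin 3 → M) :
    φ.bf.Realize v xs ↔ φ.ev xs := by
  induction φ with
  | prop c =>
    unfold Fm.bf Fm.ev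
    split_ifs with h <;> simp [h]
  | eq s t => simp [Fm.bf, Fm.ev, Tm.realize]
  | rel r t => simp [Fm.bf, Fm.ev, Tm.realize]
  | not a ih => simp [Fm.bf, Fm.ev, ih]
  | imp a b iha ihb => simp [Fm.bf, Fm.ev, iha, ihb]
  | and a b iha ihb => simp [Fm.bf, Fm.ev, iha, ihb]
  | iff a b iha ihb =>
    simp only [Fm.bf, Fm.ev, BoundedFormula.realize_inf, BoundedFormula.realize_imp, iha, ihb]
    tauto

end

theorem Fm.qf (φ : Fm) : φ.bf.IsQF := by
  induction φ with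
  | prop c =>
    unfold Fm.bf
    split_ifs
    · exact BoundedFormula.IsQF.top
    · exact BoundedFormula.IsQF.falsum
  | eq s t => exact (BoundedFormula.IsAtomic.equal _ _).isQF
  | rel r t => exact (BoundedFormula.IsAtomic.rel _ _).isQF
  | not a ih => exact ih.not
  | imp a b iha ihb => exact iha.imp ihb
  | and a b iha ihb => exact iha.inf ihb
  | iff a b iha ihb => exact (iha.imp ihb).inf (ihb.imp iha)

/-- The `∀∀∃`-sentence. -/
noncomputable def Fm.sent (φ : Fm) : Lg.Sentence := φ.bf.ex.all.all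

theorem Fm.realize_sent (φ : Fm) (M : Type*) [Lg.Structure M] :
    φ.sent.Realize M ↔ ∀ x y : M, ∃ z, φ.ev ![x, y, z] := by
  unfold Fm.sent Sentence.Realize Formula.Realize
  simp only [BoundedFormula.realize_all, BoundedFormula.realize_ex, Fm.realize]
  have : ∀ x y z : M, (Fin.snoc (Fin.snoc (Fin.snoc default x : Fin 1 → M) y : Fin 2 → M) z :
      Fin 3 → M) = ![x, y, z] := by
    intro x y z
    funext i
    fin_cases i <;> rfl
  simp only [this]

theorem Fm.sent_Q (φ : Fm) : Q false 2 0 φ.sent :=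
  .all rfl (.all rfl (.base (.ex rfl (.base φ.qf))))

section
variable {N : Type*} [Lg.Structure N]

theorem tr (hN : N ⊨ Th) (φ : Fm) (h : ∀ x y : M0, ∃ z, φ.ev ![x, y, z]) (x y : N) :
    ∃ z, φ.ev ![x, y, z] :=
  (φ.realize_sent N).1 (hN.realize_of_mem _ ⟨φ.sent_Q, (φ.realize_sent M0).2 h⟩) x y

theorem pull {M : Type*} {P : Prop} {R : M → Prop} (x : M) (h : P → ∃ z, R z) :
    ∃ z, P → R z := by
  by_cases hp : P
  · obtain ⟨z, hz⟩ := h hp
    exact ⟨z, fun _ => hz⟩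
  · exact ⟨x, fun h' => absurd h' hp⟩

abbrev x0 : Tm := ⟨0, []⟩
abbrev x1 : Tm := ⟨1, []⟩
abbrev x2 : Tm := ⟨2, []⟩
abbrev tg (n d : ℕ) (h : H) (t : Tm) : Tm := t.ap (.g n d h)
abbrev tp (n d : ℕ) (t : Tm) : Tm := t.ap (.p n d)
abbrev ts (n d i : ℕ) (t : Tm) : Tm := t.ap (.s n d i)
abbrev td (n d i : ℕ) (t : Tm) : Tm := t.ap (.dl n d i)
abbrev fS (t : Tm) : Fm := .rel .S t
abbrev fX (n d : ℕ) (t : Tm) : Fm := .rel (.X n d) t
abbrev fB (n d : ℕ) (t : Tm) : Fm := .rel (.B n d) t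
abbrev fIm (n d i : ℕ) (t : Tm) : Fm := .rel (.Im n d i) t
abbrev fRg (n d : ℕ) (r : Cert) (t : Tm) : Fm := .rel (.Rg n d r) t
abbrev fW (n d : ℕ) (r : Cert) (t : Tm) : Fm := .rel (.W n d r) t
abbrev fKS (k i : ℕ) (t : Tm) : Fm := .rel (.KS k i) t

/-- Models of the theory satisfy `TM`. -/
theorem TM_of [Nonempty N] (hN : N ⊨ Th) : TM N where
  sX n d n' d' x :=
    (tr hN (.imp (fX n d x0) (.imp (fX n' d' x0) (.prop (n = n' ∧ d = d'))))
      (fun x _ => ⟨x, std.sX n d n' d' x⟩) x x).elim fun _ h => h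
  sS n d x :=
    (tr hN (.imp (fS x0) (.not (fX n d x0)))
      (fun x _ => ⟨x, std.sS n d x⟩) x x).elim fun _ h => h
  g_X n d h x :=
    (tr hN (.imp (fX n d x0) (fX n d (tg n d h x0)))
      (fun x _ => ⟨x, std.g_X n d h x⟩) x x).elim fun _ h => h
  g_out n d h x :=
    (tr hN (.imp (.not (fX n d x0)) (.eq (tg n d h x0) x0))
      (fun x _ => ⟨x, std.g_out n d h x⟩) x x).elim fun _ h => h
  g_add n d h h' x :=
    (tr hN (.eq (tg n d h (tg n d h' x0)) (tg n d (h + h') x0))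
      (fun x _ => ⟨x, std.g_add n d h h' x⟩) x x).elim fun _ h => h
  g_zero n d h x :=
    (tr hN (.imp (.prop (∀ j ≤ d, h j = 0)) (.eq (tg n d h x0) x0))
      (fun x _ => ⟨x, std.g_zero n d h x⟩) x x).elim fun _ h => h
  g_free n d h x :=
    (tr hN (.imp (fX n d x0) (.imp (.eq (tg n d h x0) x0) (.prop (∀ j ≤ d, h j = 0))))
      (fun x _ => ⟨x, std.g_free n d h x⟩) x x).elim fun _ h => h
  p_X n d x :=
    (tr hN (.imp (fX n (d + 1) x0) (fX n d (tp n (d + 1) x0)))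
      (fun x _ => ⟨x, std.p_X n d x⟩) x x).elim fun _ h => h
  p_S n x :=
    (tr hN (.imp (fX n 0 x0) (fS (tp n 0 x0)))
      (fun x _ => ⟨x, std.p_S n x⟩) x x).elim fun _ h => h
  p_out n d x :=
    (tr hN (.imp (.not (fX n d x0)) (.eq (tp n d x0) x0))
      (fun x _ => ⟨x, std.p_out n d x⟩) x x).elim fun _ h => h
  p_g n d h x :=
    (tr hN (.imp (fX n (d + 1) x0) (.eq (tp n (d + 1) (tg n (d + 1) h x0)) (tg n d h (tp n (d + 1) x0))))
      (fun x _ => ⟨x, std.p_g n d h x⟩) x x).elim fun _ h => h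
  p_g0 n h x :=
    (tr hN (.imp (fX n 0 x0) (.eq (tp n 0 (tg n 0 h x0)) (tp n 0 x0)))
      (fun x _ => ⟨x, std.p_g0 n h x⟩) x x).elim fun _ h => h
  s_X n d i x :=
    (tr hN (.imp (fX n d x0) (fX (n + 1) d (ts n d i x0)))
      (fun x _ => ⟨x, std.s_X n d i x⟩) x x).elim fun _ h => h
  s_out n d i x :=
    (tr hN (.imp (.not (fX n d x0)) (.eq (ts n d i x0) x0))
      (fun x _ => ⟨x, std.s_out n d i x⟩) x x).elim fun _ h => h
  s_g n d i h x :=
    (tr hN (.imp (fX n d x0) (.eq (ts n d i (tg n d h x0)) (tg (n + 1) d h (ts n d i x0))))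
      (fun x _ => ⟨x, std.s_g n d i h x⟩) x x).elim fun _ h => h
  s_p n d i x :=
    (tr hN (.imp (fX n (d + 1) x0) (.eq (tp (n + 1) (d + 1) (ts n (d + 1) i x0)) (ts n d i (tp n (d + 1) x0))))
      (fun x _ => ⟨x, std.s_p n d i x⟩) x x).elim fun _ h => h
  s_p0 n i x :=
    (tr hN (.imp (fX n 0 x0) (.eq (tp (n + 1) 0 (ts n 0 i x0)) (tp n 0 x0)))
      (fun x _ => ⟨x, std.s_p0 n i x⟩) x x).elim fun _ h => h
  d_s n d i x :=
    (tr hN (.imp (fX n d x0) (.eq (td n d i (ts n d i x0)) x0))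
      (fun x _ => ⟨x, std.d_s n d i x⟩) x x).elim fun _ h => h
  s_Im n d i x :=
    (tr hN (.imp (fX n d x0) (fIm n d i (ts n d i x0)))
      (fun x _ => ⟨x, std.s_Im n d i x⟩) x x).elim fun _ h => h
  Im_X n d i x :=
    (tr hN (.imp (fIm n d i x0) (fX (n + 1) d x0))
      (fun x _ => ⟨x, std.Im_X n d i x⟩) x x).elim fun _ h => h
  Im_d n d i x :=
    (tr hN (.imp (fIm n d i x0) (.and (fX n d (td n d i x0)) (.eq (ts n d i (td n d i x0)) x0)))
      (fun x _ => ⟨x, std.Im_d n d i x⟩) x x).elim fun _ h => h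
  d_out n d i x :=
    (tr hN (.imp (.not (fIm n d i x0)) (.eq (td n d i x0) x0))
      (fun x _ => ⟨x, std.d_out n d i x⟩) x x).elim fun _ h => h
  Im_u n d i j x :=
    (tr hN (.imp (fIm n d i x0) (.imp (fIm n d j x0) (.prop (i = j))))
      (fun x _ => ⟨x, std.Im_u n d i j x⟩) x x).elim fun _ h => h
  Im_p n d i x :=
    (tr hN (.imp (fX (n + 1) (d + 1) x0) (.iff (fIm n (d + 1) i x0) (fIm n d i (tp (n + 1) (d + 1) x0))))
      (fun x _ => ⟨x, std.Im_p n d i x⟩) x x).elim fun _ h => h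
  B_X n d x :=
    (tr hN (.imp (fB n d x0) (.and (fX n d x0) (.prop (n ≤ d))))
      (fun x _ => ⟨x, std.B_X n d x⟩) x x).elim fun _ h => h
  B_g n d h x :=
    (tr hN (.imp (fX n d x0) (.iff (fB n d (tg n d h x0)) (fB n d x0)))
      (fun x _ => ⟨x, std.B_g n d h x⟩) x x).elim fun _ h => h
  B_s n d i x :=
    (tr hN (.imp (.prop (n + 1 ≤ d)) (.imp (fX n d x0) (.iff (fB (n + 1) d (ts n d i x0)) (fB n d x0))))
      (fun x _ => ⟨x, std.B_s n d i x⟩) x x).elim fun _ h => h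
  B_bad n d x y :=
    (tr hN (.imp (.prop (n ≤ d)) (.imp (fB n d x0) (.imp (fX n (d + 1) x1) (.imp (.eq (tp n (d + 1) x1) x0) (.not (fB n (d + 1) x1))))))
      (fun x y => ⟨x, std.B_bad n d x y⟩) x y).elim fun _ h => h
  B_good n d x h1 h2 h3 := by
    obtain ⟨z, hz⟩ := tr hN (.imp (.prop (n ≤ d)) (.imp (fX n d x0) (.imp (.not (fB n d x0)) (.and (fX n (d + 1) x2) (.and (.eq (tp n (d + 1) x2) x0) (fB n (d + 1) x2))))))
      (fun x _ => pull x fun h1 => pull x fun h2 => pull x fun h3 => std.B_good n d x h1 h2 h3) x x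
    exact ⟨z, hz h1 h2 h3⟩
  Rg_X n d r x :=
    (tr hN (.imp (fRg n d r x0) (fX n d x0))
      (fun x _ => ⟨x, std.Rg_X n d r x⟩) x x).elim fun _ h => h
  Rg_V_lt n d e x :=
    (tr hN (.imp (.prop (e ≤ d)) (.imp (fX n (d + 1) x0) (.iff (fRg n (d + 1) (.V e) x0) (fRg n d (.V e) (tp n (d + 1) x0)))))
      (fun x _ => ⟨x, std.Rg_V_lt n d e x⟩) x x).elim fun _ h => h
  Rg_V_gt n d e x :=
    (tr hN (.imp (.prop (d < e)) (.not (fRg n d (.V e) x0)))
      (fun x _ => ⟨x, std.Rg_V_gt n d e x⟩) x x).elim fun _ h => h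
  Rg_Z n d k i x :=
    (tr hN (.imp (fX n (d + 1) x0) (.iff (fRg n (d + 1) (.Z k i) x0) (fRg n d (.Z k i) (tp n (d + 1) x0))))
      (fun x _ => ⟨x, std.Rg_Z n d k i x⟩) x x).elim fun _ h => h
  Rg_Z0 n k i x :=
    (tr hN (.imp (fX n 0 x0) (.iff (fRg n 0 (.Z k i) x0) (fKS k i (tp n 0 x0))))
      (fun x _ => ⟨x, std.Rg_Z0 n k i x⟩) x x).elim fun _ h => h
  U_ex n d x h1 := by
    obtain ⟨z, hz⟩ := tr hN (.imp (fX n d x0) (.and (fX n (d + 1) x2) (.and (.eq (tp n (d + 1) x2) x0) (fRg n (d + 1) (.V (d + 1)) x2))))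
      (fun x _ => pull x fun h1 => std.U_ex n d x h1) x x
    exact ⟨z, hz h1⟩
  U_ex0 n x h1 := by
    obtain ⟨z, hz⟩ := tr hN (.imp (fS x0) (.and (fX n 0 x2) (.and (.eq (tp n 0 x2) x0) (fRg n 0 (.V 0) x2))))
      (fun x _ => pull x fun h1 => std.U_ex0 n x h1) x x
    exact ⟨z, hz h1⟩
  U_uni n d x y :=
    (tr hN (.imp (fRg n d (.V d) x0) (.imp (fRg n d (.V d) x1) (.imp (.eq (tp n d x0) (tp n d x1)) (.eq x0 x1))))
      (fun x y => ⟨x, std.U_uni n d x y⟩) x y).elim fun _ h => h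
  U_g n d h x :=
    (tr hN (.imp (.prop (h d = 0)) (.iff (fRg n d (.V d) (tg n d h x0)) (fRg n d (.V d) x0)))
      (fun x _ => ⟨x, std.U_g n d h x⟩) x x).elim fun _ h => h
  U_s n d i x :=
    (tr hN (.imp (fX n (d + 1) x0) (.iff (fRg (n + 1) (d + 1) (.V (d + 1)) (ts n (d + 1) i x0)) (fRg n (d + 1) (.V (d + 1)) x0)))
      (fun x _ => ⟨x, std.U_s n d i x⟩) x x).elim fun _ h => h
  U_Im n i x :=
    (tr hN (.imp (fIm n 0 i x0) (.not (fRg (n + 1) 0 (.V 0) x0)))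
      (fun x _ => ⟨x, std.U_Im n i x⟩) x x).elim fun _ h => h
  W_Rg n d r x :=
    (tr hN (.imp (fW n d r x0) (fRg n d r x0))
      (fun x _ => ⟨x, std.W_Rg n d r x⟩) x x).elim fun _ h => h
  W_bad n d r x y :=
    (tr hN (.imp (fW n d r x0) (.imp (fX n (d + 1) x1) (.imp (.eq (tp n (d + 1) x1) x0) (.not (fW n (d + 1) r x1)))))
      (fun x y => ⟨x, std.W_bad n d r x y⟩) x y).elim fun _ h => h
  W_good n d r x h1 h2 := by
    obtain ⟨z, hz⟩ := tr hN (.imp (fRg n d r x0) (.imp (.not (fW n d r x0)) (.and (fX n (d + 1) x2) (.and (.eq (tp n (d + 1) x2) x0) (fW n (d + 1) r x2)))))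
      (fun x _ => pull x fun h1 => pull x fun h2 => std.W_good n d r x h1 h2) x x
    exact ⟨z, hz h1 h2⟩
  W_B n d r x :=
    (tr hN (.imp (.prop (n ≤ d)) (.imp (fRg n d r x0) (.iff (fW n d r x0) (fB n d x0))))
      (fun x _ => ⟨x, std.W_B n d r x⟩) x x).elim fun _ h => h
  W_U n d x :=
    (tr hN (.not (fW n d (.V d) x0))
      (fun x _ => ⟨x, std.W_U n d x⟩) x x).elim fun _ h => h
  W_Zlt n k i x :=
    (tr hN (.imp (.prop (n < k)) (.not (fW n 0 (.Z k i) x0)))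
      (fun x _ => ⟨x, std.W_Zlt n k i x⟩) x x).elim fun _ h => h
  W_Zeq k i x h1 := by
    obtain ⟨z, hz⟩ := tr hN (.imp (fKS k i x0) (.and (fX k 0 x2) (.and (.eq (tp k 0 x2) x0) (fW k 0 (.Z k i) x2))))
      (fun x _ => pull x fun h1 => std.W_Zeq k i x h1) x x
    exact ⟨z, hz h1⟩
  KS_S k i x :=
    (tr hN (.imp (fKS k i x0) (fS x0))
      (fun x _ => ⟨x, std.KS_S k i x⟩) x x).elim fun _ h => h
  KS_ex k i := by
    obtain ⟨x⟩ := (inferInstance : Nonempty N)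
    exact tr hN (fKS k i x2) (fun _ _ => std.KS_ex k i) x x
  KS_uni k i x y :=
    (tr hN (.imp (fKS k i x0) (.imp (fKS k i x1) (.eq x0 x1)))
      (fun x y => ⟨x, std.KS_uni k i x y⟩) x y).elim fun _ h => h
  KS_dis k i k' i' x :=
    (tr hN (.imp (fKS k i x0) (.imp (fKS k' i' x0) (.prop (k = k' ∧ i = i'))))
      (fun x _ => ⟨x, std.KS_dis k i k' i' x⟩) x x).elim fun _ h => h

end

end Pool.Agent.Lib.MP_0da53c_lc
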