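import Pool.Agent.Lib.MP_0da53c_lc.Lang

/-!
One-point extensions of partial isomorphisms.
-/

namespace Pool.Agent.Lib.MP_0da53c_lc

open FirstOrder FirstOrder.Language

section
variable {N M : Type*} [Lg.Structure N] [Lg.Structure M]

/-- Partial isomorphism, unary form. -/
structure IsoU (G : N → M → Prop) : Prop where
  fn : ∀ (f : F1) (x : N) (y : M), G x y → G (fn f x) (fn f y)
  rl : ∀ (r : R1) (x : N) (y : M), G x y → (rl r x ↔ rl r y)
  eq : ∀ {x x' : N} {y y' : M}, G x y → G x' y' → (x = x' ↔ y = y')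

theorem IsoU.flip {G : N → M → Prop} (h : IsoU G) : IsoU (flip G) where
  fn f x y hxy := h.fn f y x hxy
  rl r x y hxy := (h.rl r y x hxy).symm
  eq hx hy := (h.eq hx hy).symm

theorem vec1 {X : Type*} (x : Fin 1 → X) : x = ![x 0] := by
  funext i
  fin_cases i
  rfl

theorem IsoU.iso {G : N → M → Prop} (h : IsoU G) : Iso Lg G where
  fn {n} f x y hxy := by
    match n, f, x, y, hxy with
    | 1, f, x, y, hxy =>
      have := h.fn f (x 0) (y 0) (hxy 0)
      unfold MP_0da53c_lc.fn at this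
      rw [← vec1 x, ← vec1 y] at this
      exact this
    | 0, f, _, _, _ => exact f.elim
    | _ + 2, f, _, _, _ => exact f.elim
  rl {n} f x y hxy := by
    match n, f, x, y, hxy with
    | 1, f, x, y, hxy =>
      have := h.rl f (x 0) (y 0) (hxy 0)
      unfold MP_0da53c_lc.rl at this
      rw [← vec1 x, ← vec1 y] at this
      exact this
    | 0, f, _, _, _ => exact f.elim
    | _ + 2, f, _, _, _ => exact f.elim
  eq := h.eq

end

section
variable {M : Type*} [Lg.Structure M]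

/-- Iterated copy along a word. -/
def sw (n d : ℕ) : List ℕ → M → M
  | [], x => x
  | i :: w, x => ss (n + w.length) d i (sw n d w x)

end

namespace TM
variable {M : Type*} [Lg.Structure M] (T : TM M)
include T

theorem sw_X {n d : ℕ} {x : M} (hx : pX n d x) (w : List ℕ) :
    pX (n + w.length) d (sw n d w x) := by
  induction w with
  | nil => exact hx
  | cons i w ih => exact T.s_X _ _ i _ ih

theorem sw_g {n d : ℕ} {x : M} (h : H) (hx : pX n d x) (w : List ℕ) :
    sg (n + w.length) d h (sw n d w x) = sw n d w (sg n d h x) := by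
  induction w with
  | nil => rfl
  | cons i w ih =>
    have := T.s_g (n + w.length) d i h _ (T.sw_X hx w)
    rw [ih] at this
    exact this.symm

theorem sw_p {n d : ℕ} {x : M} (hx : pX n (d + 1) x) (w : List ℕ) :
    sp (n + w.length) (d + 1) (sw n (d + 1) w x) = sw n d w (sp n (d + 1) x) := by
  induction w with
  | nil => rfl
  | cons i w ih =>
    have := T.s_p (n + w.length) d i _ (T.sw_X hx w)
    rw [ih] at this
    exact this

theorem sw_p0 {n : ℕ} {x : M} (hx : pX n 0 x) (w : List ℕ) :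
    sp (n + w.length) 0 (sw n 0 w x) = sp n 0 x := by
  induction w with
  | nil => rfl
  | cons i w ih =>
    have := T.s_p0 (n + w.length) i _ (T.sw_X hx w)
    rw [ih] at this
    exact this

theorem Bad_sw {n d : ℕ} {x : M} (hx : pX n d x) (w : List ℕ) :
    Bad (n + w.length) d (sw n d w x) ↔ Bad n d x := by
  induction w with
  | nil => rfl
  | cons i w ih =>
    have := T.Bad_s (n := n + w.length) i (T.sw_X hx w)
    rw [ih] at this
    exact this

theorem Zone_sw {n d : ℕ} {x : M} (hx : pX n d x) (w : List ℕ)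
    (hz : Zone (n + w.length) d (sw n d w x)) : Zone n d x := by
  induction w with
  | nil => exact hz
  | cons i w ih => exact ih (T.Zone_s (n := n + w.length) (T.sw_X hx w) hz)

theorem U_sw {n d : ℕ} {x : M} (hx : pX n (d + 1) x) (w : List ℕ) :
    pRg (n + w.length) (d + 1) (.V (d + 1)) (sw n (d + 1) w x) ↔
      pRg n (d + 1) (.V (d + 1)) x := by
  induction w with
  | nil => rfl
  | cons i w ih =>
    have := T.U_s (n + w.length) d i _ (T.sw_X hx w)
    rw [ih] at this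
    exact this

theorem X_sw_iff {n d : ℕ} {x : M} (hx : pX n d x) (w : List ℕ) (n' d' : ℕ) :
    pX n' d' (sw n d w x) ↔ n' = n + w.length ∧ d' = d := by
  constructor
  · intro h
    exact T.sX _ _ _ _ _ h (T.sw_X hx w)
  · rintro ⟨rfl, rfl⟩
    exact T.sw_X hx w

theorem Im_sw_iff {n d : ℕ} {x : M} (hx : pX n d x) (hp : Pure n d x) (w : List ℕ)
    (n' d' i : ℕ) :
    pIm n' d' i (sw n d w x) ↔ ∃ w', w = i :: w' ∧ n' = n + w'.length ∧ d' = d := by
  constructor
  · intro h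
    have h1 := T.Im_X _ _ _ _ h
    rw [T.X_sw_iff hx] at h1
    obtain ⟨h1, rfl⟩ := h1
    cases w with
    | nil => exact absurd h (hp n' i h1.symm)
    | cons j w =>
      have hn : n' = n + w.length := by simp at h1; omega
      subst hn
      have h2 : pIm (n + w.length) d' j (sw n d' (j :: w) x) := T.s_Im _ _ _ _ (T.sw_X hx w)
      have := T.Im_u _ _ _ _ _ h h2
      subst this
      exact ⟨w, rfl, rfl, rfl⟩
  · rintro ⟨w', rfl, rfl, rfl⟩
    exact T.s_Im _ _ _ _ (T.sw_X hx w')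

theorem sw_inj {n d : ℕ} {x x' : M} (hx : pX n d x) (hx' : pX n d x') (w w' : List ℕ) :
    sw n d w x = sw n d w' x' ↔ w = w' ∧ x = x' := by
  constructor
  · intro h
    have hlen : w.length = w'.length := by
      have h1 := T.sw_X hx w
      rw [h, T.X_sw_iff hx'] at h1
      omega
    induction w generalizing w' with
    | nil =>
      cases w' with
      | nil => exact ⟨rfl, h⟩
      | cons _ _ => simp at hlen
    | cons i w ih =>
      cases w' with
      | nil => simp at hlen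
      | cons j w' =>
        have hl : w.length = w'.length := by simpa using hlen
        have h1 : pIm (n + w.length) d i (sw n d (i :: w) x) := T.s_Im _ _ _ _ (T.sw_X hx w)
        have h2 : pIm (n + w.length) d j (sw n d (j :: w') x') := by
          rw [hl]
          exact T.s_Im _ _ _ _ (T.sw_X hx' w')
        rw [h] at h1
        have hij := T.Im_u _ _ _ _ _ h1 h2
        subst hij
        have h3 := congrArg (sd (n + w.length) d i) h
        have e1 : sd (n + w.length) d i (sw n d (i :: w) x) = sw n d w x :=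
          T.d_s _ _ _ _ (T.sw_X hx w)
        have e2 : sd (n + w.length) d i (sw n d (i :: w') x') = sw n d w' x' := by
          rw [hl]
          exact T.d_s _ _ _ _ (T.sw_X hx' w')
        rw [e1, e2] at h3
        obtain ⟨rfl, rfl⟩ := ih _ h3 hl
        exact ⟨rfl, rfl⟩
  · rintro ⟨rfl, rfl⟩
    rfl

end TM

section
variable {N M : Type*} [Lg.Structure N] [Lg.Structure M]

theorem IsoU.sw {G : N → M → Prop} (hG : IsoU G) {x : N} {y : M} (n d : ℕ) (w : List ℕ)
    (h : G x y) : G (sw n d w x) (sw n d w y) := by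
  induction w with
  | nil => exact h
  | cons i w ih => exact hG.fn _ _ _ ih

theorem IsoU.dom {G : N → M → Prop} (hG : IsoU G) (TN : TM N) {n d : ℕ} {x : N}
    (hx : pX n d x) (w : List ℕ) (h : H) {Y : M}
    (hY : G (MP_0da53c_lc.sw n d w (sg n d h x)) Y) : ∃ y, G x y := by
  induction w generalizing Y with
  | nil =>
    have h1 := hG.fn (.g n d (-h)) _ _ hY
    have h2 : sg n d (-h) (sg n d h x) = x := TN.g_inv h x
    refine ⟨MP_0da53c_lc.fn (.g n d (-h)) Y, ?_⟩
    rw [← h2]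
    exact h1
  | cons i w ih =>
    have h1 := hG.fn (.dl (n + w.length) d i) _ _ hY
    have h2 : sd (n + w.length) d i (MP_0da53c_lc.sw n d (i :: w) (sg n d h x)) =
        MP_0da53c_lc.sw n d w (sg n d h x) :=
      TN.d_s _ _ _ _ (TN.sw_X (TN.g_X _ _ _ _ hx) w)
    have h3 := h1
    change G (sd (n + w.length) d i (MP_0da53c_lc.sw n d (i :: w) (sg n d h x))) _ at h3
    rw [h2] at h3
    exact ih h3

theorem IsoU.zone_bad {G : N → M → Prop} (hG : IsoU G) (TN : TM N) (TM' : TM M) {n d : ℕ} {x : N}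
    {y : M} (h : G x y) (hz : Zone n d x) : Bad n d x ↔ Bad n d y := by
  obtain ⟨h0, r, hr⟩ := hz
  have h1 := hG.fn (.g n d h0) _ _ h
  have hr' : pRg n d r (sg n d h0 y) := (hG.rl (.Rg n d r) _ _ h1).1 hr
  have hx : pX n d x := (TN.g_X_iff h0 x).1 (TN.Rg_X _ _ _ _ hr)
  have hy : pX n d y := (TM'.g_X_iff h0 y).1 (TM'.Rg_X _ _ _ _ hr')
  rw [← TN.Bad_g h0 hx, ← TM'.Bad_g h0 hy, ← TN.W_iff hr, ← TM'.W_iff hr']
  exact hG.rl (.W n d r) _ _ h1

/-- The relation extended by a new pure node. -/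
def ext (G : N → M → Prop) (n d : ℕ) (x : N) (y : M) : N → M → Prop := fun X Y =>
  G X Y ∨ ∃ (w : List ℕ) (h : H), X = sw n d w (sg n d h x) ∧ Y = sw n d w (sg n d h y)

/-- The relation extended by a new inert element. -/
def ext0 (G : N → M → Prop) (x : N) (y : M) : N → M → Prop := fun X Y =>
  G X Y ∨ (X = x ∧ Y = y)

theorem ext_iso {G : N → M → Prop} (hG : IsoU G) (TN : TM N) (TM' : TM M) {n d : ℕ} {x : N}
    {y : M} (hx : pX n d x) (hy : pX n d y) (px : Pure n d x) (py : Pure n d y)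
    (dx : ¬ ∃ y', G x y') (dy : ¬ ∃ x', G x' y) (hp : G (sp n d x) (sp n d y))
    (off : ∀ h : H, pRg n d (.V d) (sg n d h x) ↔ pRg n d (.V d) (sg n d h y))
    (vis : n ≤ d → (Bad n d x ↔ Bad n d y)) (zone : Zone n d x → (Bad n d x ↔ Bad n d y)) :
    IsoU (ext G n d x y) := by
  -- parents of new pairs
  have hpar : ∀ (w : List ℕ) (h : H),
      G (sp (n + w.length) d (sw n d w (sg n d h x))) (sp (n + w.length) d (sw n d w (sg n d h y))) := by
    intro w h
    cases d with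
    | zero =>
      rw [TN.sw_p0 (TN.g_X _ _ _ _ hx), TM'.sw_p0 (TM'.g_X _ _ _ _ hy), TN.p_g0 _ _ _ hx,
        TM'.p_g0 _ _ _ hy]
      exact hp
    | succ d =>
      rw [TN.sw_p (TN.g_X _ _ _ _ hx), TM'.sw_p (TM'.g_X _ _ _ _ hy), TN.p_g _ _ _ _ hx,
        TM'.p_g _ _ _ _ hy]
      exact hG.sw _ _ _ (hG.fn _ _ _ hp)
  have hXs : ∀ (w : List ℕ) (h : H) (n' d' : ℕ),
      (pX n' d' (sw n d w (sg n d h x)) ↔ n' = n + w.length ∧ d' = d) :=
    fun w h n' d' => TN.X_sw_iff (TN.g_X _ _ _ _ hx) w n' d'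
  have hYs : ∀ (w : List ℕ) (h : H) (n' d' : ℕ),
      (pX n' d' (sw n d w (sg n d h y)) ↔ n' = n + w.length ∧ d' = d) :=
    fun w h n' d' => TM'.X_sw_iff (TM'.g_X _ _ _ _ hy) w n' d'
  have hXi : ∀ (w : List ℕ) (h : H) (n' d' i : ℕ), (pIm n' d' i (sw n d w (sg n d h x)) ↔
      ∃ w', w = i :: w' ∧ n' = n + w'.length ∧ d' = d) :=
    fun w h n' d' i => TN.Im_sw_iff (TN.g_X _ _ _ _ hx) ((TN.Pure_g h).2 px) w n' d' i
  have hYi : ∀ (w : List ℕ) (h : H) (n' d' i : ℕ), (pIm n' d' i (sw n d w (sg n d h y)) ↔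
      ∃ w', w = i :: w' ∧ n' = n + w'.length ∧ d' = d) :=
    fun w h n' d' i => TM'.Im_sw_iff (TM'.g_X _ _ _ _ hy) ((TM'.Pure_g h).2 py) w n' d' i
  have hBx : ∀ (w : List ℕ) (h : H), (Bad (n + w.length) d (sw n d w (sg n d h x)) ↔ Bad n d x) :=
    fun w h => (TN.Bad_sw (TN.g_X _ _ _ _ hx) w).trans (TN.Bad_g h hx)
  have hBy : ∀ (w : List ℕ) (h : H), (Bad (n + w.length) d (sw n d w (sg n d h y)) ↔ Bad n d y) :=
    fun w h => (TM'.Bad_sw (TM'.g_X _ _ _ _ hy) w).trans (TM'.Bad_g h hy)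
  have hRg : ∀ (w : List ℕ) (h : H) (n' d' : ℕ) (r : Cert),
      (pRg n' d' r (sw n d w (sg n d h x)) ↔ pRg n' d' r (sw n d w (sg n d h y))) := by
    intro w h n' d' r
    by_cases hs : n' = n + w.length ∧ d' = d
    · obtain ⟨rfl, rfl⟩ := hs
      have hX := (hXs w h _ _).2 ⟨rfl, rfl⟩
      have hY := (hYs w h _ _).2 ⟨rfl, rfl⟩
      cases r with
      | V e =>
        rcases Nat.lt_trichotomy e d' with he | he | he
        · obtain ⟨d, rfl⟩ : ∃ d, d' = d + 1 := ⟨d' - 1, by omega⟩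
          rw [TN.Rg_V_lt _ _ _ _ (by omega) hX, TM'.Rg_V_lt _ _ _ _ (by omega) hY]
          exact hG.rl _ _ _ (hpar w h)
        · subst he
          cases w with
          | nil => exact off h
          | cons i w =>
            cases e with
            | zero =>
              refine iff_of_false ?_ ?_
              · exact TN.U_Im _ i _ (TN.s_Im _ _ _ _ (TN.sw_X (TN.g_X _ _ _ _ hx) w))
              · exact TM'.U_Im _ i _ (TM'.s_Im _ _ _ _ (TM'.sw_X (TM'.g_X _ _ _ _ hy) w))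
            | succ e =>
              rw [TN.U_sw (TN.g_X _ _ _ _ hx), TM'.U_sw (TM'.g_X _ _ _ _ hy)]
              exact off h
        · exact iff_of_false (TN.Rg_V_gt _ _ _ _ he) (TM'.Rg_V_gt _ _ _ _ he)
      | Z k i =>
        cases d' with
        | zero =>
          rw [TN.Rg_Z0 _ _ _ _ hX, TM'.Rg_Z0 _ _ _ _ hY]
          exact hG.rl _ _ _ (hpar w h)
        | succ d =>
          rw [TN.Rg_Z _ _ _ _ _ hX, TM'.Rg_Z _ _ _ _ _ hY]
          exact hG.rl _ _ _ (hpar w h)
    · refine iff_of_false (fun hc => hs ?_) (fun hc => hs ?_)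
      · exact (hXs w h _ _).1 (TN.Rg_X _ _ _ _ hc)
      · exact (hYs w h _ _).1 (TM'.Rg_X _ _ _ _ hc)
  refine ⟨?_, ?_, ?_⟩
  · intro f X Y hXY
    rcases hXY with hXY | ⟨w, h, rfl, rfl⟩
    · exact Or.inl (hG.fn f _ _ hXY)
    cases f with
    | g n' d' h' =>
      by_cases hs : n' = n + w.length ∧ d' = d
      · obtain ⟨rfl, rfl⟩ := hs
        refine Or.inr ⟨w, h' + h, ?_, ?_⟩
        · have e := TN.sw_g h' (TN.g_X _ _ h _ hx) w
          rw [TN.g_add] at e
          exact e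
        · have e := TM'.sw_g h' (TM'.g_X _ _ h _ hy) w
          rw [TM'.g_add] at e
          exact e
      · refine Or.inr ⟨w, h, ?_, ?_⟩
        · exact TN.g_out _ _ _ _ (fun hc => hs ((hXs w h _ _).1 hc))
        · exact TM'.g_out _ _ _ _ (fun hc => hs ((hYs w h _ _).1 hc))
    | p n' d' =>
      by_cases hs : n' = n + w.length ∧ d' = d
      · obtain ⟨rfl, rfl⟩ := hs
        exact Or.inl (hpar w h)
      · refine Or.inr ⟨w, h, ?_, ?_⟩
        · exact TN.p_out _ _ _ (fun hc => hs ((hXs w h _ _).1 hc))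
        · exact TM'.p_out _ _ _ (fun hc => hs ((hYs w h _ _).1 hc))
    | s n' d' i =>
      by_cases hs : n' = n + w.length ∧ d' = d
      · obtain ⟨rfl, rfl⟩ := hs
        exact Or.inr ⟨i :: w, h, rfl, rfl⟩
      · refine Or.inr ⟨w, h, ?_, ?_⟩
        · exact TN.s_out _ _ _ _ (fun hc => hs ((hXs w h _ _).1 hc))
        · exact TM'.s_out _ _ _ _ (fun hc => hs ((hYs w h _ _).1 hc))
    | dl n' d' i =>
      by_cases hs : ∃ w', w = i :: w' ∧ n' = n + w'.length ∧ d' = d
      · obtain ⟨w', rfl, rfl, rfl⟩ := hs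
        refine Or.inr ⟨w', h, ?_, ?_⟩
        · exact TN.d_s _ _ _ _ (TN.sw_X (TN.g_X _ _ _ _ hx) w')
        · exact TM'.d_s _ _ _ _ (TM'.sw_X (TM'.g_X _ _ _ _ hy) w')
      · refine Or.inr ⟨w, h, ?_, ?_⟩
        · exact TN.d_out _ _ _ _ (fun hc => hs ((hXi w h _ _ _).1 hc))
        · exact TM'.d_out _ _ _ _ (fun hc => hs ((hYi w h _ _ _).1 hc))
  · intro r X Y hXY
    rcases hXY with hXY | ⟨w, h, rfl, rfl⟩
    · exact hG.rl r _ _ hXY
    have hX := (hXs w h _ _).2 ⟨rfl, rfl⟩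
    have hY := (hYs w h _ _).2 ⟨rfl, rfl⟩
    have nSx : ¬ pS (sw n d w (sg n d h x)) := fun hc => TN.sS _ _ _ hc hX
    have nSy : ¬ pS (sw n d w (sg n d h y)) := fun hc => TM'.sS _ _ _ hc hY
    cases r with
    | S => exact iff_of_false nSx nSy
    | X n' d' => exact (hXs w h n' d').trans (hYs w h n' d').symm
    | B n' d' =>
      by_cases hs : (n' = n + w.length ∧ d' = d) ∧ n' ≤ d'
      · obtain ⟨⟨rfl, rfl⟩, hle⟩ := hs
        change pB _ _ _ ↔ pB _ _ _
        rw [← TN.Bad_vis hle, ← TM'.Bad_vis hle, hBx, hBy]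
        exact vis (by omega)
      · refine iff_of_false (fun hc => hs ?_) (fun hc => hs ?_)
        · have := TN.B_X _ _ _ hc
          exact ⟨(hXs w h _ _).1 this.1, this.2⟩
        · have := TM'.B_X _ _ _ hc
          exact ⟨(hYs w h _ _).1 this.1, this.2⟩
    | Im n' d' i => exact (hXi w h n' d' i).trans (hYi w h n' d' i).symm
    | Rg n' d' r => exact hRg w h n' d' r
    | W n' d' r =>
      by_cases hr : pRg n' d' r (sw n d w (sg n d h x))
      · have hr' := (hRg w h n' d' r).1 hr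
        obtain ⟨rfl, rfl⟩ := (hXs w h _ _).1 (TN.Rg_X _ _ _ _ hr)
        change pW _ _ _ _ ↔ pW _ _ _ _
        rw [TN.W_iff hr, TM'.W_iff hr', hBx, hBy]
        apply zone
        rw [← TN.Zone_g h]
        refine TN.Zone_sw (TN.g_X _ _ _ _ hx) w ⟨0, r, ?_⟩
        rw [TN.g_zero _ _ _ _ (by simp)]
        exact hr
      · refine iff_of_false (fun hc => hr (TN.W_Rg _ _ _ _ hc)) (fun hc => hr ?_)
        rw [hRg]
        exact TM'.W_Rg _ _ _ _ hc
    | KS k i =>
      exact iff_of_false (fun hc => nSx (TN.KS_S _ _ _ hc)) (fun hc => nSy (TM'.KS_S _ _ _ hc))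
  · intro X X' Y Y' h1 h2
    rcases h1 with h1 | ⟨w, h, rfl, rfl⟩ <;> rcases h2 with h2 | ⟨w', h', rfl, rfl⟩
    · exact hG.eq h1 h2
    · refine iff_of_false (fun hc => dx ?_) (fun hc => dy ?_)
      · rw [hc] at h1
        exact hG.dom TN hx w' h' h1
      · rw [hc] at h1
        exact hG.flip.dom TM' hy w' h' h1
    · refine iff_of_false (fun hc => dx ?_) (fun hc => dy ?_)
      · rw [← hc] at h2
        exact hG.dom TN hx w h h2
      · rw [← hc] at h2
        exact hG.flip.dom TM' hy w h h2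
    · rw [TN.sw_inj (TN.g_X _ _ _ _ hx) (TN.g_X _ _ _ _ hx),
        TM'.sw_inj (TM'.g_X _ _ _ _ hy) (TM'.g_X _ _ _ _ hy), TN.g_eq_iff hx, TM'.g_eq_iff hy]

theorem ext0_iso {G : N → M → Prop} (hG : IsoU G) (TN : TM N) (TM' : TM M) {x : N}
    {y : M} (hx : Inert x) (hy : Inert y) (hS : pS x ↔ pS y)
    (hK : ∀ k i, pKS k i x ↔ pKS k i y)
    (dx : ¬ ∃ y', G x y') (dy : ¬ ∃ x', G x' y) : IsoU (ext0 G x y) := by
  refine ⟨?_, ?_, ?_⟩
  · intro f X Y hXY
    rcases hXY with hXY | ⟨rfl, rfl⟩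
    · exact Or.inl (hG.fn f _ _ hXY)
    right
    cases f with
    | g n' d' h' => exact ⟨TN.g_out _ _ _ _ (hx _ _), TM'.g_out _ _ _ _ (hy _ _)⟩
    | p n' d' => exact ⟨TN.p_out _ _ _ (hx _ _), TM'.p_out _ _ _ (hy _ _)⟩
    | s n' d' i => exact ⟨TN.s_out _ _ _ _ (hx _ _), TM'.s_out _ _ _ _ (hy _ _)⟩
    | dl n' d' i =>
      exact ⟨TN.d_out _ _ _ _ (fun hc => hx _ _ (TN.Im_X _ _ _ _ hc)),
        TM'.d_out _ _ _ _ (fun hc => hy _ _ (TM'.Im_X _ _ _ _ hc))⟩
  · intro r X Y hXY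
    rcases hXY with hXY | ⟨rfl, rfl⟩
    · exact hG.rl r _ _ hXY
    cases r with
    | S => exact hS
    | X n' d' => exact iff_of_false (hx _ _) (hy _ _)
    | B n' d' =>
      exact iff_of_false (fun hc => hx _ _ (TN.B_X _ _ _ hc).1)
        (fun hc => hy _ _ (TM'.B_X _ _ _ hc).1)
    | Im n' d' i =>
      exact iff_of_false (fun hc => hx _ _ (TN.Im_X _ _ _ _ hc))
        (fun hc => hy _ _ (TM'.Im_X _ _ _ _ hc))
    | Rg n' d' r =>
      exact iff_of_false (fun hc => hx _ _ (TN.Rg_X _ _ _ _ hc))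
        (fun hc => hy _ _ (TM'.Rg_X _ _ _ _ hc))
    | W n' d' r =>
      exact iff_of_false (fun hc => hx _ _ (TN.Rg_X _ _ _ _ (TN.W_Rg _ _ _ _ hc)))
        (fun hc => hy _ _ (TM'.Rg_X _ _ _ _ (TM'.W_Rg _ _ _ _ hc)))
    | KS k i => exact hK k i
  · intro X X' Y Y' h1 h2
    rcases h1 with h1 | ⟨rfl, rfl⟩ <;> rcases h2 with h2 | ⟨rfl, rfl⟩
    · exact hG.eq h1 h2
    · refine iff_of_false (fun hc => dx ?_) (fun hc => dy ?_)
      · rw [hc] at h1
        exact ⟨_, h1⟩
      · rw [hc] at h1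
        exact ⟨_, h1⟩
    · refine iff_of_false (fun hc => dx ?_) (fun hc => dy ?_)
      · rw [← hc] at h2
        exact ⟨_, h2⟩
      · rw [← hc] at h2
        exact ⟨_, h2⟩
    · exact iff_of_true rfl rfl

end

end Pool.Agent.Lib.MP_0da53c_lc
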