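import Pool.Agent.Lib.MP_0da53c_lc.Ext

/-!
Rich models, graded classes of partial isomorphisms and the extension property.
-/

namespace Pool.Agent.Lib.MP_0da53c_lc

open FirstOrder FirstOrder.Language

universe u

/-- Richness: countable-avoiding realisation of the basic configurations. -/
structure Rich (M : Type*) [Lg.Structure M] : Prop where
  junk : ∀ C : Set M, C.Countable → ∃ z, z ∉ C ∧ Inert z ∧ ¬ pS z
  top : ∀ (κ : ℕ∞) (C : Set M), C.Countable →
    ∃ a, a ∉ C ∧ pS a ∧ (∀ k i, ¬ pKS k i a) ∧ ∀ n : ℕ, An n a ↔ κ ≤ n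
  node : ∀ (n d : ℕ) (y : M) (C : Set M), C.Countable → pX n d y → (d ≠ 0 → Pure n d y) →
    ∃ y', y' ∉ C ∧ pX n d y' ∧ sp n d y' = sp n d y ∧ Pure n d y' ∧ (Bad n d y' ↔ Bad n d y)

section
variable {N M : Type*} [Lg.Structure N] [Lg.Structure M]

/-- Countable partial isomorphisms with prescribed preservation of badness. -/
structure KR (R : ℕ → ℕ → Prop → Prop → Prop) (R' : ℕ → Prop → Prop → Prop)
    (G : N → M → Prop) : Prop where
  iso : IsoU G
  ct : {p : N × M | G p.1 p.2}.Countable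
  cn : ∀ (n d : ℕ) (x : N) (y : M), G x y → pX n d x → Pure n d x → R n d (Bad n d x) (Bad n d y)
  cs : ∀ (n : ℕ) (a : N) (b : M), G a b → pS a → R' n (An n a) (An n b)

/-- Closure properties of the preservation conditions. -/
structure Cond (R : ℕ → ℕ → Prop → Prop → Prop) (R' : ℕ → Prop → Prop → Prop) : Prop where
  refl : ∀ n d P, R n d P P
  refl' : ∀ n P, R' n P P
  F1 : ∀ (n : ℕ) (P P' v : Prop), R' n P P' → (v → P) →
    ∃ v' : Prop, (v' → P') ∧ R n 0 v v' ∧ (n ≤ 0 → (v ↔ v'))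
  F2 : ∀ (n d : ℕ) (P P' v : Prop), R n d P P' → (v → ¬ P) →
    ∃ v' : Prop, (v' → ¬ P') ∧ R n (d + 1) v v' ∧ (n ≤ d + 1 → (v ↔ v'))

theorem Iso_ran_countable {G : N → M → Prop} (h : {p : N × M | G p.1 p.2}.Countable) :
    {y : M | ∃ x, G x y}.Countable := by
  refine (h.image Prod.snd).mono ?_
  rintro y ⟨x, hx⟩
  exact ⟨(x, y), hx, rfl⟩

theorem ext_ct {G : N → M → Prop} (h : {p : N × M | G p.1 p.2}.Countable) (n d : ℕ) (x : N)
    (y : M) : {p : N × M | ext G n d x y p.1 p.2}.Countable := by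
  have h2 : (Set.range fun q : List ℕ × H =>
      ((sw n d q.1 (sg n d q.2 x), sw n d q.1 (sg n d q.2 y)) : N × M)).Countable :=
    Set.countable_range _
  refine (h.union h2).mono ?_
  rintro ⟨X, Y⟩ (hXY | ⟨w, h, rfl, rfl⟩)
  · exact Or.inl hXY
  · exact Or.inr ⟨(w, h), rfl⟩

theorem ext0_ct {G : N → M → Prop} (h : {p : N × M | G p.1 p.2}.Countable) (x : N)
    (y : M) : {p : N × M | ext0 G x y p.1 p.2}.Countable := by
  refine (h.union (Set.countable_singleton (x, y))).mono ?_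
  rintro ⟨X, Y⟩ (hXY | ⟨rfl, rfl⟩)
  · exact Or.inl hXY
  · exact Or.inr rfl

theorem ext0_KR {R : ℕ → ℕ → Prop → Prop → Prop} {R' : ℕ → Prop → Prop → Prop}
    {G : N → M → Prop} (hG : KR R R' G) (TN : TM N) (TM' : TM M) {x : N}
    {y : M} (hx : Inert x) (hy : Inert y) (hS : pS x ↔ pS y)
    (hK : ∀ k i, pKS k i x ↔ pKS k i y)
    (dx : ¬ ∃ y', G x y') (dy : ¬ ∃ x', G x' y)
    (hA : pS x → ∀ n, R' n (An n x) (An n y)) : KR R R' (ext0 G x y) where
  iso := ext0_iso hG.iso TN TM' hx hy hS hK dx dy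
  ct := ext0_ct hG.ct x y
  cn := by
    rintro n d X Y (h | ⟨rfl, rfl⟩) hX hP
    · exact hG.cn n d X Y h hX hP
    · exact absurd hX (hx n d)
  cs := by
    rintro n X Y (h | ⟨rfl, rfl⟩) hX
    · exact hG.cs n X Y h hX
    · exact hA hX n

theorem ext_KR {R : ℕ → ℕ → Prop → Prop → Prop} {R' : ℕ → Prop → Prop → Prop}
    {G : N → M → Prop} (hG : KR R R' G) (TN : TM N) (TM' : TM M) {n d : ℕ} {x : N}
    {y : M} (hx : pX n d x) (hy : pX n d y) (px : Pure n d x) (py : Pure n d y)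
    (dx : ¬ ∃ y', G x y') (dy : ¬ ∃ x', G x' y) (hp : G (sp n d x) (sp n d y))
    (off : ∀ h : H, pRg n d (.V d) (sg n d h x) ↔ pRg n d (.V d) (sg n d h y))
    (vis : n ≤ d → (Bad n d x ↔ Bad n d y)) (zone : Zone n d x → (Bad n d x ↔ Bad n d y))
    (hR : R n d (Bad n d x) (Bad n d y)) : KR R R' (ext G n d x y) where
  iso := ext_iso hG.iso TN TM' hx hy px py dx dy hp off vis zone
  ct := ext_ct hG.ct n d x y
  cn := by
    rintro n' d' X Y (h | ⟨w, h, rfl, rfl⟩) hX hP
    · exact hG.cn n' d' X Y h hX hP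
    · obtain ⟨rfl, rfl⟩ := (TN.X_sw_iff (TN.g_X _ _ _ _ hx) w n' d').1 hX
      cases w with
      | nil =>
        have e1 : Bad n d' (sg n d' h x) = Bad n d' x := propext (TN.Bad_g h hx)
        have e2 : Bad n d' (sg n d' h y) = Bad n d' y := propext (TM'.Bad_g h hy)
        change R n d' (Bad n d' (sg n d' h x)) (Bad n d' (sg n d' h y))
        rw [e1, e2]
        exact hR
      | cons i w =>
        exact absurd (TN.s_Im _ _ _ _ (TN.sw_X (TN.g_X _ _ _ _ hx) w)) (hP (n + w.length) i rfl)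
  cs := by
    rintro n' X Y (h | ⟨w, h, rfl, rfl⟩) hX
    · exact hG.cs n' X Y h hX
    · exact absurd (TN.sw_X (TN.g_X _ _ _ _ hx) w) (TN.sS _ _ _ hX)

theorem IsoU.pure_iff {G : N → M → Prop} (hG : IsoU G) {n d : ℕ} {x : N} {y : M} (h : G x y) :
    Pure n d x ↔ Pure n d y := by
  unfold Pure
  have : ∀ m i, pIm m d i x ↔ pIm m d i y := fun m i => hG.rl (.Im m d i) _ _ h
  simp only [this]

end

namespace TM
variable {M : Type*} [Lg.Structure M] (T : TM M)
include T

/-- Translation by an element concentrated on the last coordinate preserves parents. -/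
theorem sp_single {n d : ℕ} {x : M} (hx : pX n d x) (k : ℤ) :
    sp n d (sg n d (Finsupp.single d k) x) = sp n d x := by
  cases d with
  | zero => exact T.p_g0 _ _ _ hx
  | succ d =>
    rw [T.p_g _ _ _ _ hx, T.g_zero]
    intro j hj
    rw [Finsupp.single_apply, if_neg (by omega)]

theorem U_off {n d : ℕ} {x : M} {k : ℤ} (hx : pX n d x)
    (hk : pRg n d (.V d) (sg n d (Finsupp.single d k) x)) (h : H) :
    pRg n d (.V d) (sg n d h x) ↔ h d = k := by
  rw [T.U_g']
  constructor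
  · intro h1
    have h2 := T.U_uni _ _ _ _ h1 hk (by rw [T.sp_single hx, T.sp_single hx])
    have h3 := (T.g_eq_iff hx).1 h2 d le_rfl
    simpa using h3
  · rintro rfl
    exact hk

theorem Pure_child {n d : ℕ} {x : M} (hx : pX n (d + 1) x) :
    Pure n (d + 1) x ↔ Pure n d (sp n (d + 1) x) := by
  constructor
  · rintro h m i rfl hi
    exact h m i rfl ((T.Im_p _ _ _ _ hx).2 hi)
  · rintro h m i rfl hi
    exact h m i rfl ((T.Im_p _ _ _ _ hx).1 hi)

theorem U_pure0 {n : ℕ} {x : M} (h : pRg n 0 (.V 0) x) : Pure n 0 x := by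
  rintro m i rfl hi
  exact T.U_Im m i x hi h

/-- The parent of a node. -/
theorem parent {n d : ℕ} {x : M} (hx : pX n d x) :
    (d = 0 ∧ pS (sp n d x)) ∨ ∃ e, d = e + 1 ∧ pX n e (sp n d x) := by
  cases d with
  | zero => exact Or.inl ⟨rfl, T.p_S _ _ hx⟩
  | succ e => exact Or.inr ⟨e, rfl, T.p_X _ _ _ hx⟩

end TM

section
variable {N M : Type*} [Lg.Structure N] [Lg.Structure M]

/-- Extension by a pure node whose parent is already matched. -/
theorem pure_step {R : ℕ → ℕ → Prop → Prop → Prop} {R' : ℕ → Prop → Prop → Prop}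
    (hc : Cond R R') {G : N → M → Prop} (hG : KR R R' G) (TN : TM N) (TM' : TM M)
    (hM : Rich M) {n d : ℕ} {x : N} (hx : pX n d x) (px : Pure n d x)
    (dx : ¬ ∃ y', G x y') {b : M} (hb : G (sp n d x) b) {u : M} (hu : pX n d u)
    (hub : sp n d u = b) (hur : pRg n d (.V d) u) (hup : Pure n d u)
    (v' : Prop) (c0 : M) (hc0 : pX n d c0) (hcb : sp n d c0 = b) (hcp : d ≠ 0 → Pure n d c0)
    (hcv : Bad n d c0 ↔ v') (hR : R n d (Bad n d x) v')
    (vis : n ≤ d → (Bad n d x ↔ v'))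
    (zone : (∀ h, ¬ pRg n d (.V d) (sg n d h x)) → Zone n d x → (Bad n d x ↔ v')) :
    ∃ G', KR R R' G' ∧ (∀ a b, G a b → G' a b) ∧ ∃ y, G' x y := by
  by_cases hU : ∃ h, pRg n d (.V d) (sg n d h x)
  · obtain ⟨h, hh⟩ := hU
    rw [TN.U_g'] at hh
    generalize hk : h d = k at hh
    have e1 : sg n d (Finsupp.single d k) (sg n d (-Finsupp.single d k) u) = u :=
      TM'.g_inv' _ _
    have hy : pX n d (sg n d (-Finsupp.single d k) u) := TM'.g_X _ _ _ _ hu
    have hkY : pRg n d (.V d) (sg n d (Finsupp.single d k) (sg n d (-Finsupp.single d k) u)) := by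
      rw [e1]
      exact hur
    have hyp : sp n d (sg n d (-Finsupp.single d k) u) = b := by
      rw [← Finsupp.single_neg, TM'.sp_single hu, hub]
    have gx : ¬ Bad n d x := by
      rw [← TN.Bad_g (Finsupp.single d k) hx]
      exact TN.U_good hh
    have gy : ¬ Bad n d (sg n d (-Finsupp.single d k) u) := by
      rw [TM'.Bad_g _ hu]
      exact TM'.U_good hur
    refine ⟨ext G n d x (sg n d (-Finsupp.single d k) u), ?_, fun a b h => Or.inl h,
      sg n d (-Finsupp.single d k) u, Or.inr ⟨[], 0, ?_, ?_⟩⟩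
    · refine ext_KR hG TN TM' hx hy px ((TM'.Pure_g _).2 hup) dx ?_ ?_ ?_ ?_ ?_ ?_
      · rintro ⟨x', hx'⟩
        apply dx
        have h1 := hG.iso.fn (.g n d (Finsupp.single d k)) _ _ hx'
        have h2 : pRg n d (.V d) (sg n d (Finsupp.single d k) x') :=
          (hG.iso.rl (.Rg n d (.V d)) _ _ h1).2 hkY
        have hxX : pX n d x' := (TN.g_X_iff _ _).1 (TN.Rg_X _ _ _ _ h2)
        have h3 : sp n d x' = sp n d x := by
          have h4 := hG.iso.fn (.p n d) _ _ hx'
          have h5 : G (sp n d x') b := by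
            rw [← hyp]
            exact h4
          exact (hG.iso.eq h5 hb).2 rfl
        have h6 := TN.U_uni _ _ _ _ h2 hh (by rw [TN.sp_single hxX, TN.sp_single hx, h3])
        have h7 := congrArg (sg n d (-Finsupp.single d k)) h6
        rw [TN.g_inv, TN.g_inv] at h7
        rw [← h7]
        exact ⟨_, hx'⟩
      · rw [hyp]
        exact hb
      · intro h'
        rw [TN.U_off hx hh, TM'.U_off hy hkY]
      · exact fun _ => iff_of_false gx gy
      · exact fun _ => iff_of_false gx gy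
      · have e3 : Bad n d x = Bad n d (sg n d (-Finsupp.single d k) u) :=
          propext (iff_of_false gx gy)
        rw [e3]
        exact hc.refl _ _ _
    · exact (TN.g_zero _ _ _ _ (by simp)).symm
    · exact (TM'.g_zero _ _ _ _ (by simp)).symm
  · push Not at hU
    have hC : ({y : M | ∃ x, G x y} ∪
        Set.range fun k : ℤ => sg n d (Finsupp.single d k) u).Countable :=
      (Iso_ran_countable hG.ct).union (Set.countable_range _)
    obtain ⟨y, hyC, hy, hyp, hyP, hyB⟩ := hM.node n d c0 _ hC hc0 hcp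
    rw [hcb] at hyp
    rw [hcv] at hyB
    have hyB' : Bad n d y = v' := propext hyB
    refine ⟨ext G n d x y, ?_, fun a b h => Or.inl h, y, Or.inr ⟨[], 0, ?_, ?_⟩⟩
    · refine ext_KR hG TN TM' hx hy px hyP dx (fun hc => hyC (Or.inl hc)) ?_ ?_ ?_ ?_ ?_
      · rw [hyp]
        exact hb
      · intro h
        refine iff_of_false (hU h) (fun hc => hyC (Or.inr ?_))
        rw [TM'.U_g'] at hc
        have h1 := TM'.U_uni _ _ _ _ hc hur (by rw [TM'.sp_single hy, hyp, hub])
        refine ⟨-(h d), ?_⟩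
        change sg n d (Finsupp.single d (-(h d))) u = y
        rw [← h1, Finsupp.single_neg, TM'.g_inv]
      · rw [hyB']
        exact vis
      · rw [hyB']
        exact zone hU
      · rw [hyB']
        exact hR
    · exact (TN.g_zero _ _ _ _ (by simp)).symm
    · exact (TM'.g_zero _ _ _ _ (by simp)).symm

/-- Extension by an inert element. -/
theorem inert_step {R : ℕ → ℕ → Prop → Prop → Prop} {R' : ℕ → Prop → Prop → Prop}
    (hc : Cond R R') {G : N → M → Prop} (hG : KR R R' G) (TN : TM N) (TM' : TM M)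
    (hM : Rich M) {x : N} (hx : Inert x) :
    ∃ G', KR R R' G' ∧ (∀ a b, G a b → G' a b) ∧ ∃ y, G' x y := by
  by_cases dx : ∃ y', G x y'
  · exact ⟨G, hG, fun _ _ h => h, dx⟩
  have key : ∀ y : M, Inert y → (pS x ↔ pS y) → (∀ k i, pKS k i x ↔ pKS k i y) →
      (¬ ∃ x', G x' y) → (pS x → ∀ n, R' n (An n x) (An n y)) →
      ∃ G', KR R R' G' ∧ (∀ a b, G a b → G' a b) ∧ ∃ y, G' x y := by
    intro y hy hS hK dy hA
    exact ⟨ext0 G x y, ext0_KR hG TN TM' hx hy hS hK dx dy hA, fun a b h => Or.inl h, y,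
      Or.inr ⟨rfl, rfl⟩⟩
  by_cases hS : pS x
  · by_cases hK : ∃ k i, pKS k i x
    · obtain ⟨k, i, hk⟩ := hK
      obtain ⟨y, hy⟩ := TM'.KS_ex k i
      have hyS := TM'.KS_S _ _ _ hy
      refine key y (fun n d => TM'.sS n d y hyS) (iff_of_true hS hyS) ?_ ?_ ?_
      · intro k' i'
        constructor
        · intro h
          obtain ⟨rfl, rfl⟩ := TN.KS_dis _ _ _ _ _ h hk
          exact hy
        · intro h
          obtain ⟨rfl, rfl⟩ := TM'.KS_dis _ _ _ _ _ h hy
          exact hk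
      · rintro ⟨x', hx'⟩
        apply dx
        have h1 := (hG.iso.rl (.KS k i) _ _ hx').2 hy
        have h2 := TN.KS_uni _ _ _ _ h1 hk
        rw [← h2]
        exact ⟨_, hx'⟩
      · intro _ n
        have e : An n x = An n y := propext ((TN.KS_A hk n).trans (TM'.KS_A hy n).symm)
        rw [e]
        exact hc.refl' _ _
    · push Not at hK
      have hκ : ∃ κ : ℕ∞, ∀ n : ℕ, An n x ↔ κ ≤ n := by
        classical
        by_cases hE : ∃ n, An n x
        · refine ⟨(Nat.find hE : ℕ), fun n => ?_⟩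
          rw [Nat.cast_le]
          exact ⟨fun h => Nat.find_min' hE h, fun h => TN.A_mono h (Nat.find_spec hE)⟩
        · refine ⟨⊤, fun n => ?_⟩
          push Not at hE
          exact iff_of_false (hE n) (by simp)
      obtain ⟨κ, hκ⟩ := hκ
      obtain ⟨y, hyC, hyS, hyK, hyA⟩ := hM.top κ _ (Iso_ran_countable hG.ct)
      refine key y (fun n d => TM'.sS n d y hyS) (iff_of_true hS hyS) ?_ hyC ?_
      · exact fun k i => iff_of_false (hK k i) (hyK k i)
      · intro _ n
        have e : An n x = An n y := propext ((hκ n).trans (hyA n).symm)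
        rw [e]
        exact hc.refl' _ _
  · obtain ⟨y, hyC, hy, hyS⟩ := hM.junk _ (Iso_ran_countable hG.ct)
    refine key y hy (iff_of_false hS hyS) ?_ hyC (fun h => absurd h hS)
    intro k i
    exact iff_of_false (fun h => hS (TN.KS_S _ _ _ h)) (fun h => hyS (TM'.KS_S _ _ _ h))

/-- Extension by a pure node, parent matched. -/
theorem node_step {R : ℕ → ℕ → Prop → Prop → Prop} {R' : ℕ → Prop → Prop → Prop}
    (hc : Cond R R') {G : N → M → Prop} (hG : KR R R' G) (TN : TM N) (TM' : TM M)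
    (hM : Rich M) {n d : ℕ} {x : N} (hx : pX n d x) (px : Pure n d x)
    {b : M} (hb : G (sp n d x) b) :
    ∃ G', KR R R' G' ∧ (∀ a b, G a b → G' a b) ∧ ∃ y, G' x y := by
  by_cases dx : ∃ y', G x y'
  · exact ⟨G, hG, fun _ _ h => h, dx⟩
  cases d with
  | zero =>
    have ha := TN.p_S _ _ hx
    have hbS : pS b := (hG.iso.rl .S _ _ hb).1 ha
    obtain ⟨u, hu, hub, hur⟩ := TM'.U_ex0 n b hbS
    have hv : ∃ v' : Prop, (v' → An n b) ∧ R n 0 (Bad n 0 x) v' ∧ (n ≤ 0 → (Bad n 0 x ↔ v')) ∧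
        ((∀ h, ¬ pRg n 0 (.V 0) (sg n 0 h x)) → Zone n 0 x → (Bad n 0 x ↔ v')) := by
      by_cases hK : ∃ k i, pKS k i (sp n 0 x)
      · obtain ⟨k, i, hk⟩ := hK
        have hk' : pKS k i b := (hG.iso.rl (.KS k i) _ _ hb).1 hk
        refine ⟨Bad n 0 x, ?_, hc.refl _ _ _, fun _ => Iff.rfl, fun _ _ => Iff.rfl⟩
        intro hbx
        rw [TM'.KS_A hk', ← TN.KS_A hk n]
        exact ⟨x, hx, rfl, hbx⟩
      · obtain ⟨v', h1, h2, h3⟩ := hc.F1 n (An n (sp n 0 x)) (An n b) (Bad n 0 x)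
          (hG.cs n _ _ hb ha) (fun h => ⟨x, hx, rfl, h⟩)
        refine ⟨v', h1, h2, h3, ?_⟩
        rintro hU ⟨h, r, hr⟩
        exfalso
        cases r with
        | V e =>
          cases e with
          | zero => exact hU h hr
          | succ e => exact TN.Rg_V_gt _ _ _ _ (by omega) hr
        | Z k i =>
          rw [TN.Rg_Z0 _ _ _ _ (TN.g_X _ _ _ _ hx), TN.p_g0 _ _ _ hx] at hr
          exact hK ⟨k, i, hr⟩
    obtain ⟨v', h1, h2, h3, h4⟩ := hv
    have hc0 : ∃ c0, pX n 0 c0 ∧ sp n 0 c0 = b ∧ (Bad n 0 c0 ↔ v') := by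
      by_cases hv' : v'
      · obtain ⟨c0, hc1, hc2, hc3⟩ := h1 hv'
        exact ⟨c0, hc1, hc2, iff_of_true hc3 hv'⟩
      · exact ⟨u, hu, hub, iff_of_false (TM'.U_good hur) hv'⟩
    obtain ⟨c0, hc1, hc2, hc3⟩ := hc0
    exact pure_step hc hG TN TM' hM hx px dx hb hu hub hur (TM'.U_pure0 hur) v' c0 hc1 hc2
      (fun h => absurd rfl h) hc3 h2 h3 h4
  | succ d =>
    have ha := TN.p_X _ _ _ hx
    have hpa : Pure n d (sp n (d + 1) x) := (TN.Pure_child hx).1 px
    have hbX : pX n d b := (hG.iso.rl (.X n d) _ _ hb).1 ha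
    have hpb : Pure n d b := (hG.iso.pure_iff hb).1 hpa
    obtain ⟨u, hu, hub, hur⟩ := TM'.U_ex n d b hbX
    have hxa : Bad n (d + 1) x → ¬ Bad n d (sp n (d + 1) x) :=
      fun h h' => (TN.Bad_iff ha).1 h' x hx rfl h
    have hv : ∃ v' : Prop, (v' → ¬ Bad n d b) ∧ R n (d + 1) (Bad n (d + 1) x) v' ∧
        (n ≤ d + 1 → (Bad n (d + 1) x ↔ v')) ∧
        ((∀ h, ¬ pRg n (d + 1) (.V (d + 1)) (sg n (d + 1) h x)) → Zone n (d + 1) x →
          (Bad n (d + 1) x ↔ v')) := by
      by_cases hz : Zone n d (sp n (d + 1) x)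
      · refine ⟨Bad n (d + 1) x, ?_, hc.refl _ _ _, fun _ => Iff.rfl, fun _ _ => Iff.rfl⟩
        intro h
        rw [← hG.iso.zone_bad TN TM' hb hz]
        exact hxa h
      · obtain ⟨v', h1, h2, h3⟩ := hc.F2 n d _ _ (Bad n (d + 1) x) (hG.cn n d _ _ hb ha hpa) hxa
        refine ⟨v', h1, h2, h3, ?_⟩
        rintro hU ⟨h, r, hr⟩
        exfalso
        apply hz
        refine ⟨h, r, ?_⟩
        rw [← TN.p_g _ _ _ _ hx]
        have hgx := TN.g_X _ _ h _ hx
        cases r with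
        | V e =>
          rcases Nat.lt_trichotomy e (d + 1) with he | he | he
          · exact (TN.Rg_V_lt _ _ _ _ (by omega) hgx).1 hr
          · subst he
            exact absurd hr (hU h)
          · exact absurd hr (TN.Rg_V_gt _ _ _ _ he)
        | Z k i => exact (TN.Rg_Z _ _ _ _ _ hgx).1 hr
    obtain ⟨v', h1, h2, h3, h4⟩ := hv
    have hc0 : ∃ c0, pX n (d + 1) c0 ∧ sp n (d + 1) c0 = b ∧ (Bad n (d + 1) c0 ↔ v') := by
      by_cases hv' : v'
      · obtain ⟨c0, hc1, hc2, hc3⟩ := TM'.bad_child hbX (h1 hv')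
        exact ⟨c0, hc1, hc2, iff_of_true hc3 hv'⟩
      · exact ⟨u, hu, hub, iff_of_false (TM'.U_good hur) hv'⟩
    obtain ⟨c0, hc1, hc2, hc3⟩ := hc0
    have hpc : ∀ z, pX n (d + 1) z → sp n (d + 1) z = b → Pure n (d + 1) z := by
      intro z hz hzb
      rw [TM'.Pure_child hz, hzb]
      exact hpb
    exact pure_step hc hG TN TM' hM hx px dx hb hu hub hur (hpc u hu hub) v' c0 hc1 hc2
      (fun _ => hpc c0 hc1 hc2) hc3 h2 h3 h4

/-- The extension property. -/
theorem forth {R : ℕ → ℕ → Prop → Prop → Prop} {R' : ℕ → Prop → Prop → Prop}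
    (hc : Cond R R') (TN : TM N) (TM' : TM M) (hM : Rich M) :
    Forth (KR (N := N) (M := M) R R') := by
  intro G hG x
  by_cases hx : Inert x
  · exact inert_step hc hG TN TM' hM hx
  unfold Inert at hx
  push Not at hx
  obtain ⟨n, d, hx⟩ := hx
  induction d generalizing n x G with
  | zero =>
    induction n generalizing x G with
    | zero =>
      have hp : Pure 0 0 x := fun m i h => absurd h (by omega)
      obtain ⟨G1, h1, h2, b, hb⟩ := inert_step hc hG TN TM' hM
        (x := sp 0 0 x) (fun n d => TN.sS n d _ (TN.p_S _ _ hx))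
      obtain ⟨G2, h3, h4, h5⟩ := node_step hc h1 TN TM' hM hx hp hb
      exact ⟨G2, h3, fun a b h => h4 _ _ (h2 _ _ h), h5⟩
    | succ n ih =>
      by_cases hp : Pure (n + 1) 0 x
      · obtain ⟨G1, h1, h2, b, hb⟩ := inert_step hc hG TN TM' hM
          (x := sp (n + 1) 0 x) (fun n d => TN.sS n d _ (TN.p_S _ _ hx))
        obtain ⟨G2, h3, h4, h5⟩ := node_step hc h1 TN TM' hM hx hp hb
        exact ⟨G2, h3, fun a b h => h4 _ _ (h2 _ _ h), h5⟩
      · unfold Pure at hp
        push Not at hp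
        obtain ⟨m, i, hm, hi⟩ := hp
        obtain rfl : n = m := by omega
        obtain ⟨h1, h2⟩ := TN.Im_d _ _ _ _ hi
        obtain ⟨G1, h3, h4, y, hy⟩ := ih G hG _ h1
        refine ⟨G1, h3, h4, fn (.s n 0 i) y, ?_⟩
        have := h3.iso.fn (.s n 0 i) _ _ hy
        rw [← h2]
        exact this
  | succ d ihd =>
    induction n generalizing x G with
    | zero =>
      have hp : Pure 0 (d + 1) x := fun m i h => absurd h (by omega)
      obtain ⟨G1, h1, h2, b, hb⟩ := ihd G hG (sp 0 (d + 1) x) 0 (TN.p_X _ _ _ hx)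
      obtain ⟨G2, h3, h4, h5⟩ := node_step hc h1 TN TM' hM hx hp hb
      exact ⟨G2, h3, fun a b h => h4 _ _ (h2 _ _ h), h5⟩
    | succ n ih =>
      by_cases hp : Pure (n + 1) (d + 1) x
      · obtain ⟨G1, h1, h2, b, hb⟩ := ihd G hG (sp (n + 1) (d + 1) x) (n + 1) (TN.p_X _ _ _ hx)
        obtain ⟨G2, h3, h4, h5⟩ := node_step hc h1 TN TM' hM hx hp hb
        exact ⟨G2, h3, fun a b h => h4 _ _ (h2 _ _ h), h5⟩
      · unfold Pure at hp
        push Not at hp
        obtain ⟨m, i, hm, hi⟩ := hp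
        obtain rfl : n = m := by omega
        obtain ⟨h1, h2⟩ := TN.Im_d _ _ _ _ hi
        obtain ⟨G1, h3, h4, y, hy⟩ := ih G hG _ h1
        refine ⟨G1, h3, h4, fn (.s n (d + 1) i) y, ?_⟩
        have := h3.iso.fn (.s n (d + 1) i) _ _ hy
        rw [← h2]
        exact this

/-! ### The graded classes -/

/-- Condition on nodes at level `m`. -/
def Rm (m : ℕ) : ℕ → ℕ → Prop → Prop → Prop := fun n d P P' =>
  (n < d + m → (P ↔ P')) ∧ (n = d + m → ¬ P → ¬ P')

/-- Condition on names at level `m`. -/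
def Rm' (m : ℕ) : ℕ → Prop → Prop → Prop := fun n P P' =>
  (n + 1 < m → (P ↔ P')) ∧ (n + 1 = m → P → P')

theorem cond_m (m : ℕ) : Cond (Rm (m + 1)) (Rm' (m + 1)) where
  refl n d P := ⟨fun _ => Iff.rfl, fun _ => id⟩
  refl' n P := ⟨fun _ => Iff.rfl, fun _ => id⟩
  F1 n P P' v h hv := by
    by_cases hn : n < m + 1
    · refine ⟨v, fun hv' => ?_, ⟨fun _ => Iff.rfl, fun _ => id⟩, fun _ => Iff.rfl⟩
      by_cases hn' : n = m
      · exact h.2 (by omega) (hv hv')
      · exact (h.1 (by omega)).1 (hv hv')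
    · exact ⟨False, False.elim, ⟨fun h => by omega, fun _ _ => id⟩, fun h => by omega⟩
  F2 n d P P' v h hv := by
    by_cases hn : n < d + 1 + (m + 1)
    · refine ⟨v, fun hv' => ?_, ⟨fun _ => Iff.rfl, fun _ => id⟩, fun _ => Iff.rfl⟩
      by_cases hn' : n = d + (m + 1)
      · exact h.2 hn' (hv hv')
      · rw [← h.1 (by omega)]
        exact hv hv'
    · exact ⟨False, False.elim, ⟨fun h => by omega, fun _ _ => id⟩, fun h => by omega⟩

/-- The graded back-and-forth system between rich models. -/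
theorem system (TN : TM N) (TM' : TM M) (hN : Rich N) (hM : Rich M) :
    System (L := Lg) (fun m => KR (N := N) (M := M) (Rm m) (Rm' m))
      (fun m => KR (N := M) (M := N) (Rm m) (Rm' m)) := by
  refine ⟨fun m G h => h.iso.iso, fun m G h => h.iso.iso, fun m => forth (cond_m m) TN TM' hM,
    fun m => forth (cond_m m) TM' TN hN, ?_, ?_⟩
  · intro m G h
    refine ⟨h.iso.flip, ?_, ?_, ?_⟩
    · refine (h.ct.image Prod.swap).mono ?_
      rintro ⟨y, x⟩ hxy
      exact ⟨(x, y), hxy, rfl⟩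
    · intro n d y x hxy hy hp
      have hx : pX n d x := (h.iso.rl (.X n d) _ _ hxy).2 hy
      have hpx : Pure n d x := (h.iso.pure_iff hxy).2 hp
      have := h.cn n d x y hxy hx hpx
      exact ⟨fun hn => (this.1 (by omega)).symm, fun hn => fun h1 h2 =>
        h1 ((this.1 (by omega)).1 h2)⟩
    · intro n b a hab hb
      have ha : pS a := (h.iso.rl .S _ _ hab).2 hb
      have := h.cs n a b hab ha
      exact ⟨fun hn => (this.1 (by omega)).symm, fun hn => (this.1 (by omega)).2⟩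
  · intro m G h
    refine ⟨h.iso.flip, ?_, ?_, ?_⟩
    · refine (h.ct.image Prod.swap).mono ?_
      rintro ⟨y, x⟩ hxy
      exact ⟨(x, y), hxy, rfl⟩
    · intro n d y x hxy hy hp
      have hx : pX n d x := (h.iso.rl (.X n d) _ _ hxy).2 hy
      have hpx : Pure n d x := (h.iso.pure_iff hxy).2 hp
      have := h.cn n d x y hxy hx hpx
      exact ⟨fun hn => (this.1 (by omega)).symm, fun hn => fun h1 h2 =>
        h1 ((this.1 (by omega)).1 h2)⟩
    · intro n b a hab hb
      have ha : pS a := (h.iso.rl .S _ _ hab).2 hb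
      have := h.cs n a b hab ha
      exact ⟨fun hn => (this.1 (by omega)).symm, fun hn => (this.1 (by omega)).2⟩

/-- Exact countable partial isomorphisms. -/
abbrev Exact (G : N → M → Prop) : Prop :=
  KR (fun _ _ P P' => (P ↔ P')) (fun _ P P' => (P ↔ P')) G

theorem Exact.K {G : N → M → Prop} (h : Exact G) (m : ℕ) : KR (Rm m) (Rm' m) G where
  iso := h.iso
  ct := h.ct
  cn n d x y hxy hx hp := ⟨fun _ => h.cn n d x y hxy hx hp,
    fun _ => fun h1 h2 => h1 ((h.cn n d x y hxy hx hp).2 h2)⟩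
  cs n a b hab ha := ⟨fun _ => h.cs n a b hab ha, fun _ => (h.cs n a b hab ha).1⟩

end

theorem Exact.formula {N M : Type u} [Lg.Structure N] [Lg.Structure M] [Nonempty N] [Nonempty M]
    (TN : TM N) (TM' : TM M) (hN : Rich N) (hM : Rich M) {G : N → M → Prop} (hG : Exact G)
    {α : Type*} (v : α → N) (w : α → M) (hv : ∀ a, G (v a) (w a)) (φ : Lg.Formula α) :
    φ.Realize v ↔ φ.Realize w :=
  System.exact (system TN TM' hN hM) G hG.K v w hv φ

end Pool.Agent.Lib.MP_0da53c_lc
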