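import Pool.Agent.Lib.MP_0da53c_lc.Trans

/-!
The language of forests of infinite trees, the list `TM` of `∀_2` properties used, and
first consequences.
-/

namespace Pool.Agent.Lib.MP_0da53c_lc

open FirstOrder FirstOrder.Language

/-- The acting group. -/
abbrev H := ℕ →₀ ℤ

/-- Names of certified regions. -/
inductive Cert : Type
  | V (e : ℕ)
  | Z (k i : ℕ)

/-- Unary function symbols. -/
inductive F1 : Type
  | g (n d : ℕ) (h : H)
  | p (n d : ℕ)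
  | s (n d i : ℕ)
  | dl (n d i : ℕ)

/-- Unary relation symbols. -/
inductive R1 : Type
  | S
  | X (n d : ℕ)
  | B (n d : ℕ)
  | Im (n d i : ℕ)
  | Rg (n d : ℕ) (r : Cert)
  | W (n d : ℕ) (r : Cert)
  | KS (k i : ℕ)

/-- Function symbols by arity. -/
def Fn : ℕ → Type
  | 1 => F1
  | _ => Empty

/-- Relation symbols by arity. -/
def Rel : ℕ → Type
  | 1 => R1
  | _ => Empty

/-- The language. -/
def Lg : FirstOrder.Language.{0, 0} := ⟨Fn, Rel⟩

/-- A unary function symbol as a symbol of the language. -/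
def F1.toF (f : F1) : Lg.Functions 1 := f

/-- A unary relation symbol as a symbol of the language. -/
def R1.toR (r : R1) : Lg.Relations 1 := r

section
variable {M : Type*} [Lg.Structure M]

/-- Interpretation of a unary function symbol. -/
def fn (f : F1) (x : M) : M := Structure.funMap f.toF ![x]

/-- Interpretation of a unary relation symbol. -/
def rl (r : R1) (x : M) : Prop := Structure.RelMap r.toR ![x]

abbrev sg (n d : ℕ) (h : H) (x : M) : M := fn (.g n d h) x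
abbrev sp (n d : ℕ) (x : M) : M := fn (.p n d) x
abbrev ss (n d i : ℕ) (x : M) : M := fn (.s n d i) x
abbrev sd (n d i : ℕ) (x : M) : M := fn (.dl n d i) x
abbrev pS (x : M) : Prop := rl .S x
abbrev pX (n d : ℕ) (x : M) : Prop := rl (.X n d) x
abbrev pB (n d : ℕ) (x : M) : Prop := rl (.B n d) x
abbrev pIm (n d i : ℕ) (x : M) : Prop := rl (.Im n d i) x
abbrev pRg (n d : ℕ) (r : Cert) (x : M) : Prop := rl (.Rg n d r) x
abbrev pW (n d : ℕ) (r : Cert) (x : M) : Prop := rl (.W n d r) x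
abbrev pKS (k i : ℕ) (x : M) : Prop := rl (.KS k i) x

/-- The listed `∀_2` properties. -/
structure TM (M : Type*) [Lg.Structure M] : Prop where
  sX : ∀ (n d n' d' : ℕ) (x : M), pX n d x → pX n' d' x → n = n' ∧ d = d'
  sS : ∀ (n d : ℕ) (x : M), pS x → ¬ pX n d x
  g_X : ∀ (n d : ℕ) (h : H) (x : M), pX n d x → pX n d (sg n d h x)
  g_out : ∀ (n d : ℕ) (h : H) (x : M), ¬ pX n d x → sg n d h x = x
  g_add : ∀ (n d : ℕ) (h h' : H) (x : M), sg n d h (sg n d h' x) = sg n d (h + h') x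
  g_zero : ∀ (n d : ℕ) (h : H) (x : M), (∀ j ≤ d, h j = 0) → sg n d h x = x
  g_free : ∀ (n d : ℕ) (h : H) (x : M), pX n d x → sg n d h x = x → ∀ j ≤ d, h j = 0
  p_X : ∀ (n d : ℕ) (x : M), pX n (d + 1) x → pX n d (sp n (d + 1) x)
  p_S : ∀ (n : ℕ) (x : M), pX n 0 x → pS (sp n 0 x)
  p_out : ∀ (n d : ℕ) (x : M), ¬ pX n d x → sp n d x = x
  p_g : ∀ (n d : ℕ) (h : H) (x : M), pX n (d + 1) x →
    sp n (d + 1) (sg n (d + 1) h x) = sg n d h (sp n (d + 1) x)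
  p_g0 : ∀ (n : ℕ) (h : H) (x : M), pX n 0 x → sp n 0 (sg n 0 h x) = sp n 0 x
  s_X : ∀ (n d i : ℕ) (x : M), pX n d x → pX (n + 1) d (ss n d i x)
  s_out : ∀ (n d i : ℕ) (x : M), ¬ pX n d x → ss n d i x = x
  s_g : ∀ (n d i : ℕ) (h : H) (x : M), pX n d x →
    ss n d i (sg n d h x) = sg (n + 1) d h (ss n d i x)
  s_p : ∀ (n d i : ℕ) (x : M), pX n (d + 1) x →
    sp (n + 1) (d + 1) (ss n (d + 1) i x) = ss n d i (sp n (d + 1) x)
  s_p0 : ∀ (n i : ℕ) (x : M), pX n 0 x → sp (n + 1) 0 (ss n 0 i x) = sp n 0 x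
  d_s : ∀ (n d i : ℕ) (x : M), pX n d x → sd n d i (ss n d i x) = x
  s_Im : ∀ (n d i : ℕ) (x : M), pX n d x → pIm n d i (ss n d i x)
  Im_X : ∀ (n d i : ℕ) (x : M), pIm n d i x → pX (n + 1) d x
  Im_d : ∀ (n d i : ℕ) (x : M), pIm n d i x →
    pX n d (sd n d i x) ∧ ss n d i (sd n d i x) = x
  d_out : ∀ (n d i : ℕ) (x : M), ¬ pIm n d i x → sd n d i x = x
  Im_u : ∀ (n d i j : ℕ) (x : M), pIm n d i x → pIm n d j x → i = j
  Im_p : ∀ (n d i : ℕ) (x : M), pX (n + 1) (d + 1) x →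
    (pIm n (d + 1) i x ↔ pIm n d i (sp (n + 1) (d + 1) x))
  B_X : ∀ (n d : ℕ) (x : M), pB n d x → pX n d x ∧ n ≤ d
  B_g : ∀ (n d : ℕ) (h : H) (x : M), pX n d x → (pB n d (sg n d h x) ↔ pB n d x)
  B_s : ∀ (n d i : ℕ) (x : M), n + 1 ≤ d → pX n d x → (pB (n + 1) d (ss n d i x) ↔ pB n d x)
  B_bad : ∀ (n d : ℕ) (x y : M), n ≤ d → pB n d x → pX n (d + 1) y → sp n (d + 1) y = x →
    ¬ pB n (d + 1) y
  B_good : ∀ (n d : ℕ) (x : M), n ≤ d → pX n d x → ¬ pB n d x →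
    ∃ y, pX n (d + 1) y ∧ sp n (d + 1) y = x ∧ pB n (d + 1) y
  Rg_X : ∀ (n d : ℕ) (r : Cert) (x : M), pRg n d r x → pX n d x
  Rg_V_lt : ∀ (n d e : ℕ) (x : M), e ≤ d → pX n (d + 1) x →
    (pRg n (d + 1) (.V e) x ↔ pRg n d (.V e) (sp n (d + 1) x))
  Rg_V_gt : ∀ (n d e : ℕ) (x : M), d < e → ¬ pRg n d (.V e) x
  Rg_Z : ∀ (n d k i : ℕ) (x : M), pX n (d + 1) x →
    (pRg n (d + 1) (.Z k i) x ↔ pRg n d (.Z k i) (sp n (d + 1) x))
  Rg_Z0 : ∀ (n k i : ℕ) (x : M), pX n 0 x → (pRg n 0 (.Z k i) x ↔ pKS k i (sp n 0 x))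
  U_ex : ∀ (n d : ℕ) (x : M), pX n d x →
    ∃ y, pX n (d + 1) y ∧ sp n (d + 1) y = x ∧ pRg n (d + 1) (.V (d + 1)) y
  U_ex0 : ∀ (n : ℕ) (x : M), pS x → ∃ y, pX n 0 y ∧ sp n 0 y = x ∧ pRg n 0 (.V 0) y
  U_uni : ∀ (n d : ℕ) (x y : M), pRg n d (.V d) x → pRg n d (.V d) y →
    sp n d x = sp n d y → x = y
  U_g : ∀ (n d : ℕ) (h : H) (x : M), h d = 0 →
    (pRg n d (.V d) (sg n d h x) ↔ pRg n d (.V d) x)
  U_s : ∀ (n d i : ℕ) (x : M), pX n (d + 1) x →
    (pRg (n + 1) (d + 1) (.V (d + 1)) (ss n (d + 1) i x) ↔ pRg n (d + 1) (.V (d + 1)) x)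
  U_Im : ∀ (n i : ℕ) (x : M), pIm n 0 i x → ¬ pRg (n + 1) 0 (.V 0) x
  W_Rg : ∀ (n d : ℕ) (r : Cert) (x : M), pW n d r x → pRg n d r x
  W_bad : ∀ (n d : ℕ) (r : Cert) (x y : M), pW n d r x → pX n (d + 1) y → sp n (d + 1) y = x →
    ¬ pW n (d + 1) r y
  W_good : ∀ (n d : ℕ) (r : Cert) (x : M), pRg n d r x → ¬ pW n d r x →
    ∃ y, pX n (d + 1) y ∧ sp n (d + 1) y = x ∧ pW n (d + 1) r y
  W_B : ∀ (n d : ℕ) (r : Cert) (x : M), n ≤ d → pRg n d r x → (pW n d r x ↔ pB n d x)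
  W_U : ∀ (n d : ℕ) (x : M), ¬ pW n d (.V d) x
  W_Zlt : ∀ (n k i : ℕ) (x : M), n < k → ¬ pW n 0 (.Z k i) x
  W_Zeq : ∀ (k i : ℕ) (x : M), pKS k i x → ∃ y, pX k 0 y ∧ sp k 0 y = x ∧ pW k 0 (.Z k i) y
  KS_S : ∀ (k i : ℕ) (x : M), pKS k i x → pS x
  KS_ex : ∀ (k i : ℕ), ∃ x : M, pKS k i x
  KS_uni : ∀ (k i : ℕ) (x y : M), pKS k i x → pKS k i y → x = y
  KS_dis : ∀ (k i k' i' : ℕ) (x : M), pKS k i x → pKS k' i' x → k = k' ∧ i = i'

/-- Badness with `k` hidden levels. -/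
def badk : ℕ → ℕ → ℕ → M → Prop
  | 0, n, d, x => pB n d x
  | k + 1, n, d, x => ∀ y, pX n (d + 1) y → sp n (d + 1) y = x → ¬ badk k n (d + 1) y

/-- Badness of a node. -/
def Bad (n d : ℕ) (x : M) : Prop := badk (n - d) n d x

/-- Some root of the `n`-th family over `a` is bad. -/
def An (n : ℕ) (a : M) : Prop := ∃ c, pX n 0 c ∧ sp n 0 c = a ∧ Bad n 0 c

/-- The node is not a copy. -/
def Pure (n d : ℕ) (x : M) : Prop := ∀ m i, n = m + 1 → ¬ pIm m d i x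

/-- The node is outside all sorts of nodes. -/
def Inert (x : M) : Prop := ∀ n d, ¬ pX n d x

/-- Some translate of the node is in a certified region. -/
def Zone (n d : ℕ) (x : M) : Prop := ∃ h r, pRg n d r (sg n d h x)

end

namespace TM
variable {M : Type*} [Lg.Structure M] (T : TM M)
include T

theorem g_inv {n d : ℕ} (h : H) (x : M) : sg n d (-h) (sg n d h x) = x := by
  rw [T.g_add, T.g_zero]
  simp

theorem g_inv' {n d : ℕ} (h : H) (x : M) : sg n d h (sg n d (-h) x) = x := by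
  rw [T.g_add, T.g_zero]
  simp

theorem g_X_iff {n d : ℕ} (h : H) (x : M) : pX n d (sg n d h x) ↔ pX n d x := by
  refine ⟨fun hx => ?_, T.g_X n d h x⟩
  have := T.g_X n d (-h) _ hx
  rwa [T.g_inv] at this

theorem Bad_iff {n d : ℕ} {x : M} (hx : pX n d x) :
    Bad n d x ↔ ∀ y, pX n (d + 1) y → sp n (d + 1) y = x → ¬ Bad n (d + 1) y := by
  unfold Bad
  by_cases hnd : n ≤ d
  · have e1 : n - d = 0 := by omega
    have e2 : n - (d + 1) = 0 := by omega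
    rw [e1, e2]
    simp only [badk]
    refine ⟨fun hb y hy hp => T.B_bad n d x y hnd hb hy hp, fun hb => ?_⟩
    by_contra hc
    obtain ⟨y, hy, hp, hby⟩ := T.B_good n d x hnd hx hc
    exact hb y hy hp hby
  · have e1 : n - d = (n - (d + 1)) + 1 := by omega
    rw [e1]
    exact Iff.rfl

theorem Bad_vis {n d : ℕ} {x : M} (h : n ≤ d) : Bad n d x ↔ pB n d x := by
  unfold Bad
  have e1 : n - d = 0 := by omega
  rw [e1]
  exact Iff.rfl

theorem Bad_g {n d : ℕ} {x : M} (h : H) (hx : pX n d x) : Bad n d (sg n d h x) ↔ Bad n d x := by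
  obtain ⟨k, hk⟩ : ∃ k, k = n - d := ⟨_, rfl⟩
  induction k generalizing d x with
  | zero =>
    rw [T.Bad_vis (by omega), T.Bad_vis (by omega)]
    exact T.B_g n d h x hx
  | succ k ih =>
    rw [T.Bad_iff (T.g_X n d h x hx), T.Bad_iff hx]
    constructor
    · intro H y hy hp hb
      refine H (sg n (d + 1) h y) (T.g_X _ _ _ _ hy) ?_ ((ih hy (by omega)).2 hb)
      rw [T.p_g n d h y hy, hp]
    · intro H y hy hp hb
      refine H (sg n (d + 1) (-h) y) (T.g_X _ _ _ _ hy) ?_ ?_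
      · rw [T.p_g n d _ y hy, hp, T.g_inv]
      · have hy' := T.g_X n (d + 1) (-h) y hy
        rw [← ih hy' (by omega), T.g_inv']
        exact hb

theorem child_s {n d i : ℕ} {x y : M} (hx : pX n d x) (hy : pX (n + 1) (d + 1) y)
    (hp : sp (n + 1) (d + 1) y = ss n d i x) :
    ∃ z, pX n (d + 1) z ∧ sp n (d + 1) z = x ∧ ss n (d + 1) i z = y := by
  have h1 : pIm n (d + 1) i y := by
    rw [T.Im_p n d i y hy, hp]
    exact T.s_Im n d i x hx
  obtain ⟨h2, h3⟩ := T.Im_d _ _ _ _ h1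
  refine ⟨_, h2, ?_, h3⟩
  have h4 := T.s_p n d i _ h2
  rw [h3, hp] at h4
  have h5 := congrArg (sd n d i) h4
  rw [T.d_s n d i x hx, T.d_s n d i _ (T.p_X _ _ _ h2)] at h5
  exact h5.symm

theorem Bad_s {n d : ℕ} {x : M} (i : ℕ) (hx : pX n d x) :
    Bad (n + 1) d (ss n d i x) ↔ Bad n d x := by
  obtain ⟨k, hk⟩ : ∃ k, k = n + 1 - d := ⟨_, rfl⟩
  induction k generalizing d x with
  | zero =>
    rw [T.Bad_vis (by omega), T.Bad_vis (by omega)]
    exact T.B_s n d i x (by omega) hx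
  | succ k ih =>
    rw [T.Bad_iff (T.s_X n d i x hx), T.Bad_iff hx]
    constructor
    · intro H y hy hp hb
      refine H (ss n (d + 1) i y) (T.s_X _ _ _ _ hy) ?_ ((ih hy (by omega)).2 hb)
      rw [T.s_p n d i y hy, hp]
    · intro H y hy hp hb
      obtain ⟨z, hz, hpz, rfl⟩ := T.child_s hx hy hp
      exact H z hz hpz ((ih hz (by omega)).1 hb)

theorem Rg_child {n d : ℕ} {r : Cert} {x : M} (hx : pRg n d r x) {y : M} (hy : pX n (d + 1) y)
    (hp : sp n (d + 1) y = x) : pRg n (d + 1) r y := by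
  cases r with
  | V e =>
    have he : e ≤ d := by
      by_contra hc
      exact T.Rg_V_gt n d e x (by omega) hx
    rw [T.Rg_V_lt n d e y he hy, hp]
    exact hx
  | Z k i =>
    rw [T.Rg_Z n d k i y hy, hp]
    exact hx

theorem W_iff {n d : ℕ} {r : Cert} {x : M} (hx : pRg n d r x) : pW n d r x ↔ Bad n d x := by
  obtain ⟨k, hk⟩ : ∃ k, k = n - d := ⟨_, rfl⟩
  induction k generalizing d x with
  | zero =>
    rw [T.Bad_vis (by omega)]
    exact T.W_B n d r x (by omega) hx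
  | succ k ih =>
    rw [T.Bad_iff (T.Rg_X n d r x hx)]
    constructor
    · intro hw y hy hp hb
      exact T.W_bad n d r x y hw hy hp ((ih (T.Rg_child hx hy hp) (by omega)).2 hb)
    · intro H
      by_contra hc
      obtain ⟨y, hy, hp, hw⟩ := T.W_good n d r x hx hc
      exact H y hy hp ((ih (T.Rg_child hx hy hp) (by omega)).1 hw)

theorem U_good {n d : ℕ} {x : M} (hx : pRg n d (.V d) x) : ¬ Bad n d x := by
  rw [← T.W_iff hx]
  exact T.W_U n d x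

theorem A_succ {n : ℕ} {a : M} (h : An n a) : An (n + 1) a := by
  obtain ⟨c, hc, hp, hb⟩ := h
  exact ⟨ss n 0 0 c, T.s_X _ _ _ _ hc, by rw [T.s_p0 _ _ _ hc, hp], (T.Bad_s 0 hc).2 hb⟩

theorem A_mono {n m : ℕ} (hnm : n ≤ m) {a : M} (h : An n a) : An m a := by
  induction hnm with
  | refl => exact h
  | step _ ih => exact T.A_succ ih

theorem KS_A {k i : ℕ} {a : M} (h : pKS k i a) (n : ℕ) : An n a ↔ k ≤ n := by
  constructor
  · rintro ⟨c, hc, rfl, hb⟩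
    by_contra hkn
    have hr : pRg n 0 (.Z k i) c := (T.Rg_Z0 n k i c hc).2 h
    exact T.W_Zlt n k i c (by omega) ((T.W_iff hr).2 hb)
  · intro hkn
    refine T.A_mono hkn ?_
    obtain ⟨c, hc, hp, hw⟩ := T.W_Zeq k i a h
    exact ⟨c, hc, hp, (T.W_iff (T.W_Rg _ _ _ _ hw)).1 hw⟩

theorem good_child {n d : ℕ} {x : M} (hx : pX n d x) :
    ∃ y, pX n (d + 1) y ∧ sp n (d + 1) y = x ∧ ¬ Bad n (d + 1) y := by
  obtain ⟨y, hy, hp, hr⟩ := T.U_ex n d x hx
  exact ⟨y, hy, hp, T.U_good hr⟩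

theorem bad_child {n d : ℕ} {x : M} (hx : pX n d x) (hb : ¬ Bad n d x) :
    ∃ y, pX n (d + 1) y ∧ sp n (d + 1) y = x ∧ Bad n (d + 1) y := by
  rw [T.Bad_iff hx] at hb
  push Not at hb
  exact hb

theorem Im_g {n d i : ℕ} {x : M} (h : H) (hx : pIm n d i x) : pIm n d i (sg (n + 1) d h x) := by
  obtain ⟨h1, h2⟩ := T.Im_d _ _ _ _ hx
  rw [← h2, ← T.s_g _ _ _ _ _ h1]
  exact T.s_Im _ _ _ _ (T.g_X _ _ _ _ h1)

theorem Im_g_iff {n d i : ℕ} {x : M} (h : H) : pIm n d i (sg (n + 1) d h x) ↔ pIm n d i x := by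
  refine ⟨fun hx => ?_, T.Im_g h⟩
  have := T.Im_g (-h) hx
  rwa [T.g_inv] at this

theorem Pure_g {n d : ℕ} {x : M} (h : H) : Pure n d (sg n d h x) ↔ Pure n d x := by
  unfold Pure
  constructor
  · rintro hp m i rfl hi
    exact hp m i rfl ((T.Im_g_iff h).2 hi)
  · rintro hp m i rfl hi
    exact hp m i rfl ((T.Im_g_iff h).1 hi)

theorem Zone_g {n d : ℕ} {x : M} (h : H) : Zone n d (sg n d h x) ↔ Zone n d x := by
  constructor
  · rintro ⟨h', r, hr⟩
    exact ⟨h' + h, r, by rwa [← T.g_add]⟩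
  · rintro ⟨h', r, hr⟩
    refine ⟨h' + (-h), r, ?_⟩
    rw [← T.g_add, T.g_inv]
    exact hr

theorem Rg_s {n d : ℕ} {r : Cert} {i : ℕ} {x : M} (hx : pX n d x)
    (hr : pRg (n + 1) d r (ss n d i x)) : pRg n d r x := by
  induction d generalizing x with
  | zero =>
    cases r with
    | V e =>
      cases e with
      | zero => exact absurd hr (T.U_Im n i _ (T.s_Im _ _ _ _ hx))
      | succ e => exact absurd hr (T.Rg_V_gt _ _ _ _ (by omega))
    | Z k j =>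
      rw [T.Rg_Z0 _ _ _ _ (T.s_X _ _ _ _ hx), T.s_p0 _ _ _ hx] at hr
      rwa [T.Rg_Z0 _ _ _ _ hx]
  | succ d ih =>
    cases r with
    | V e =>
      rcases Nat.lt_trichotomy e (d + 1) with h | h | h
      · rw [T.Rg_V_lt _ _ _ _ (by omega) (T.s_X _ _ _ _ hx), T.s_p _ _ _ _ hx] at hr
        rw [T.Rg_V_lt _ _ _ _ (by omega) hx]
        exact ih (T.p_X _ _ _ hx) hr
      · subst h
        exact (T.U_s n d i x hx).1 hr
      · exact absurd hr (T.Rg_V_gt _ _ _ _ (by omega))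
    | Z k j =>
      rw [T.Rg_Z _ _ _ _ _ (T.s_X _ _ _ _ hx), T.s_p _ _ _ _ hx] at hr
      rw [T.Rg_Z _ _ _ _ _ hx]
      exact ih (T.p_X _ _ _ hx) hr

theorem Zone_s {n d : ℕ} {i : ℕ} {x : M} (hx : pX n d x)
    (hr : Zone (n + 1) d (ss n d i x)) : Zone n d x := by
  obtain ⟨h, r, hr⟩ := hr
  rw [← T.s_g _ _ _ _ _ hx] at hr
  exact ⟨h, r, T.Rg_s (T.g_X _ _ _ _ hx) hr⟩

/-- Action only depends on the relevant coordinates. -/
theorem g_congr {n d : ℕ} {h h' : H} (hh : ∀ j ≤ d, h j = h' j) (x : M) :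
    sg n d h x = sg n d h' x := by
  have e : h = (h - h') + h' := by abel
  rw [e, ← T.g_add, T.g_zero]
  intro j hj
  simp [hh j hj]

theorem g_eq_iff {n d : ℕ} {h h' : H} {x : M} (hx : pX n d x) :
    sg n d h x = sg n d h' x ↔ ∀ j ≤ d, h j = h' j := by
  refine ⟨fun he j hj => ?_, fun hh => T.g_congr hh x⟩
  have h1 : sg n d (-h' + h) x = x := by
    rw [← T.g_add, he, T.g_inv]
  have h2 := T.g_free n d _ x hx h1 j hj
  simp at h2
  linarith

/-- Being in the distinguished orbit depends only on the last coordinate. -/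
theorem U_g' {n d : ℕ} (h : H) (x : M) :
    pRg n d (.V d) (sg n d h x) ↔ pRg n d (.V d) (sg n d (Finsupp.single d (h d)) x) := by
  have e : h = (h - Finsupp.single d (h d)) + Finsupp.single d (h d) := by abel
  conv_lhs => rw [e, ← T.g_add]
  apply T.U_g
  simp

end TM

end Pool.Agent.Lib.MP_0da53c_lc
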