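import Pool.Agent.Lib.MP_0da53c_lc.Stab

/-!
Completeness, `ω`-stability and the unbounded type.
-/

namespace Pool.Agent.Lib.MP_0da53c_lc

open FirstOrder FirstOrder.Language

universe u v w u' v'

/-! ### Preservation of the classes under relabelling -/

section
variable {L : FirstOrder.Language.{u, v}} {L' : FirstOrder.Language.{u', v'}} {α : Type*}
  {β : Type*}

theorem isQF_map (ft : ∀ n, L.Term (α ⊕ (Fin n)) ≃ L'.Term (β ⊕ (Fin n)))
    (fr : ∀ n, L.Relations n ≃ L'.Relations n) {n : ℕ} {φ : L.BoundedFormula α n}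
    (h : φ.IsQF) : (BoundedFormula.mapTermRelEquiv ft fr φ).IsQF := by
  induction h with
  | falsum => exact BoundedFormula.IsQF.falsum
  | of_isAtomic ha =>
    cases ha with
    | equal t₁ t₂ => exact (BoundedFormula.IsAtomic.equal _ _).isQF
    | rel R ts => exact (BoundedFormula.IsAtomic.rel _ _).isQF
  | imp _ _ ih1 ih2 => exact ih1.imp ih2

theorem Q_map (ft : ∀ n, L.Term (α ⊕ (Fin n)) ≃ L'.Term (β ⊕ (Fin n)))
    (fr : ∀ n, L.Relations n ≃ L'.Relations n) (m : ℕ) : ∀ (b : Bool) (n : ℕ)
    (φ : L.BoundedFormula α n), Q b m n φ → Q b m n (BoundedFormula.mapTermRelEquiv ft fr φ) := by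
  induction m with
  | zero =>
    intro b n φ h
    rw [Q_zero] at h ⊢
    exact isQF_map ft fr h
  | succ m ih =>
    intro b n φ h
    rw [Q_succ] at h ⊢
    induction h with
    | base h => exact .base (ih _ _ _ h)
    | ex hb _ ih2 => exact .ex hb ih2
    | all hb _ ih2 => exact .all hb ih2

theorem Q_equivSentence_symm {m : ℕ} {b : Bool} {φ : L[[α]].Sentence} (h : Q b m 0 φ) :
    Q b m 0 (Formula.equivSentence.symm φ) :=
  Q_map _ _ _ _ _ _ (Q_map _ _ _ _ _ _ h)

end

/-! ### Ultrapowers -/

section
variable {N : Type u} [Lg.Structure N]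

theorem ult_formula [Nonempty N] {β : Type v} (φ : Lg.Formula β) (x : β → N) :
    φ.Realize (fun b => cl fun _ : ℕ => x b) ↔ φ.Realize x := by
  have h := Ultraproduct.realize_formula_cast (M := fun _ : ℕ => N)
    (u := (Filter.hyperfilter ℕ : Ultrafilter ℕ)) φ (fun b _ => x b)
  rw [Filter.eventually_const] at h
  exact h

theorem ult_sentence [Nonempty N] (φ : Lg.Sentence) : Ult N ⊨ φ ↔ N ⊨ φ := by
  have h := Ultraproduct.sentence_realize (M := fun _ : ℕ => N)
    (u := (Filter.hyperfilter ℕ : Ultrafilter ℕ)) φ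
  rw [Filter.eventually_const] at h
  exact h

theorem ult_model [Nonempty N] (h : N ⊨ Th) : Ult N ⊨ Th := by
  rw [Theory.model_iff]
  intro φ hφ
  rw [ult_sentence]
  exact h.realize_of_mem φ hφ

end

/-- The empty relation is exact. -/
theorem exact_empty {N M : Type*} [Lg.Structure N] [Lg.Structure M] :
    Exact (fun (_ : N) (_ : M) => False) where
  iso := ⟨fun _ _ _ h => h.elim, fun _ _ _ h => h.elim, fun h => h.elim⟩
  ct := by simp
  cn := fun _ _ _ _ h => h.elim
  cs := fun _ _ _ h => h.elim

/-- Any two models of the theory are elementarily equivalent. -/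
theorem elem_equiv {N M : Type u} [Lg.Structure N] [Lg.Structure M] [Nonempty N] [Nonempty M]
    (hN : N ⊨ Th) (hM : M ⊨ Th) (φ : Lg.Sentence) : N ⊨ φ ↔ M ⊨ φ := by
  have h := Exact.formula (TM_of (ult_model hN)) (TM_of (ult_model hM)) (TM_of hN).rich
    (TM_of hM).rich exact_empty (α := Empty) default default (fun a => a.elim) φ
  rw [← ult_sentence (N := N), ← ult_sentence (N := M)]
  exact h

theorem M0_model : M0 ⊨ Th := by
  rw [Theory.model_iff]
  intro φ hφ
  exact hφ.2

theorem Th_complete : Th.IsComplete := by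
  have := M0_model
  refine ⟨⟨Theory.ModelType.of Th M0⟩, fun φ => ?_⟩
  by_cases h : M0 ⊨ φ
  · left
    rw [Theory.models_sentence_iff]
    intro N
    exact (elem_equiv N.is_model M0_model φ).2 h
  · right
    rw [Theory.models_sentence_iff]
    intro N
    rw [Sentence.realize_not]
    exact fun hc => h ((elem_equiv N.is_model M0_model φ).1 hc)

/-! ### `ω`-stability -/

/-- The theory has countably many 1-types over countable sets. -/
theorem omega_stable (M : Type w) [Lg.Structure M] [Nonempty M] (hM : M ⊨ Th) (A : Set M)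
    (hA : A.Countable) : Countable ((Lg[[A]].completeTheory M).CompleteType (Fin 1)) := by
  have hAc : Countable A := hA
  -- realisations
  have key : ∀ p : (Lg[[A]].completeTheory M).CompleteType (Fin 1),
      ∃ (N : Type w) (_ : Lg.Structure N) (_ : Nonempty N) (c : A → N) (v : N), N ⊨ Th ∧
        (∀ φ : Lg.Formula A, φ.Realize c ↔ M ⊨ (Formula.equivSentence φ : Lg[[A]].Sentence)) ∧
        ∀ ψ : Lg[[A]][[Fin 1]].Sentence, ψ ∈ p ↔
          Formula.Realize (BoundedFormula.constantsVarsEquiv (Formula.equivSentence.symm ψ) :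
            Lg.Formula (A ⊕ Fin 1)) (Sum.elim c fun _ => v) := by
    intro p
    obtain ⟨N, v, hv⟩ := Theory.exists_modelType_is_realized_in _ p
    letI : Lg.Structure N := (Lg.lhomWithConstants A).reduct N
    refine ⟨N, inferInstance, inferInstance, fun a => (Lg.con a : N), v 0, ?_, ?_, ?_⟩
    · rw [Theory.model_iff]
      intro φ hφ
      rw [← LHom.realize_onSentence N (Lg.lhomWithConstants A) φ]
      rw [realize_iff_of_model_completeTheory M N]
      rw [LHom.realize_onSentence]
      exact hM.realize_of_mem φ hφ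
    · intro φ
      rw [← realize_iff_of_model_completeTheory M N, Formula.realize_equivSentence]
    · intro ψ
      rw [← hv, Theory.CompleteType.mem_typeOf]
      have e : (fun _ : Fin 1 => v 0) = v := by
        funext i
        fin_cases i
        rfl
      rw [e]
      unfold Formula.Realize
      rw [BoundedFormula.realize_constantsVarsEquiv]
  choose N iN neN c v hN hc hp using key
  have hcode : ∀ p, ∃ wd : List (Sym A),
      Coded (fun a => cl fun _ : ℕ => c p a : A → Ult (N p)) wd (cl fun _ : ℕ => v p) := by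
    intro p
    have := neN p
    exact coded_exists (TM_of (ult_model (hN p))) _ _
  choose wd hwd using hcode
  have hinj : Function.Injective wd := by
    intro p q hpq
    have := neN p
    have := neN q
    have h1 := hwd p
    have h2 := hwd q
    rw [← hpq] at h2
    have Tp := TM_of (ult_model (hN p))
    have Tq := TM_of (ult_model (hN q))
    have h0 : Exact (Gcl (fun a => cl fun _ : ℕ => c p a : A → Ult (N p))
        (fun a => cl fun _ : ℕ => c q a : A → Ult (N q))) := by
      apply exact_of_type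
      intro φ
      rw [ult_formula φ (c p), ult_formula φ (c q), hc p, hc q]
    have h3 := coded_sound Tp Tq h0 h1 h2
    have h4 : ∀ ψ : Lg.Formula (A ⊕ Fin 1),
        ψ.Realize (Sum.elim (c p) fun _ => v p) ↔ ψ.Realize (Sum.elim (c q) fun _ => v q) := by
      intro ψ
      rw [← ult_formula ψ (Sum.elim (c p) fun _ => v p), ← ult_formula ψ (Sum.elim (c q) fun _ => v q)]
      apply Exact.formula Tp Tq (TM_of (hN p)).rich (TM_of (hN q)).rich h3
      rintro (a | i)
      · exact gcl_self (cx (fun a => cl fun _ : ℕ => c p a) (cl fun _ : ℕ => v p))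
          (cx (fun a => cl fun _ : ℕ => c q a) (cl fun _ : ℕ => v q)) (some a)
      · exact gcl_self (cx (fun a => cl fun _ : ℕ => c p a) (cl fun _ : ℕ => v p))
          (cx (fun a => cl fun _ : ℕ => c q a) (cl fun _ : ℕ => v q)) none
    refine SetLike.ext fun ψ => ?_
    rw [hp p, hp q]
    exact h4 _
  exact hinj.countable

/-! ### The unbounded type -/

/-- A type of the theory which is not axiomatised by `∀_m`-sentences for any `m`. -/
theorem unbounded : ∃ p : Th.CompleteType (Fin 1), ∀ (m : ℕ) (Γ : Lg[[Fin 1]].Theory),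
    (∀ γ ∈ Γ, Q false m 0 γ) →
    ¬ ∀ φ : Lg[[Fin 1]].Sentence, p.toTheory ⊨ᵇ φ ↔ Γ ⊨ᵇ φ := by
  have hM := ult_model M0_model
  have T := TM_of hM
  have R : Rich (Ult M0) := (TM_of M0_model).rich
  obtain ⟨a, -, haS, haK, haA⟩ := R.top ⊤ ∅ Set.countable_empty
  refine ⟨Th.typeOf fun _ => a, fun m Γ hΓ hax => ?_⟩
  obtain ⟨b, -, hbS, hbK, hbA⟩ := R.top m ∅ Set.countable_empty
  have hG : KR (Rm m) (Rm' m) (ext0 (fun (_ : Ult M0) (_ : Ult M0) => False) b a) := by
    refine ext0_KR (exact_empty.K m) T T (fun n d => T.sS n d b hbS) (fun n d => T.sS n d a haS)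
      (iff_of_true hbS haS) (fun k i => iff_of_false (hbK k i) (haK k i)) (by simp) (by simp) ?_
    intro _ n
    have h1 : ¬ An n a := by
      rw [haA]
      simp
    refine ⟨fun hn => iff_of_false ?_ h1, fun hn => fun h => ?_⟩
    · rw [hbA, Nat.cast_le]
      omega
    · rw [hbA, Nat.cast_le] at h
      omega
  have hsub : ∀ γ ∈ Γ, γ ∈ Th.typeOf fun _ : Fin 1 => b := by
    intro γ hγ
    have h1 : γ ∈ Th.typeOf fun _ : Fin 1 => a := by
      have h2 : (Th.typeOf fun _ : Fin 1 => a).toTheory ⊨ᵇ γ :=
        (hax γ).2 (Theory.models_sentence_of_mem hγ)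
      exact (Th.typeOf fun _ : Fin 1 => a).isMaximal.mem_of_models h2
    rw [Theory.CompleteType.mem_typeOf] at h1 ⊢
    have h3 := System.transfer (α := Fin 1) m (system T T R R) _ hG (fun _ => b) (fun _ => a)
      (fun _ => Or.inr ⟨rfl, rfl⟩) 0 (Formula.equivSentence.symm γ) default default
      (fun i => i.elim0)
    exact h3.2 (Q_equivSentence_symm (hΓ γ hγ)) h1
  -- the separating sentence
  have hψa : (Formula.equivSentence (aF m (0 : Fin 1))).not ∈ Th.typeOf fun _ : Fin 1 => a := by
    rw [Theory.CompleteType.not_mem_iff, Theory.CompleteType.formula_mem_typeOf, realize_aF, haA]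
    simp
  have hψ : Γ ⊨ᵇ (Formula.equivSentence (aF m (0 : Fin 1))).not :=
    (hax _).1 (Theory.models_sentence_of_mem hψa)
  have hψb : (Formula.equivSentence (aF m (0 : Fin 1))).not ∈ Th.typeOf fun _ : Fin 1 => b := by
    apply (Th.typeOf fun _ : Fin 1 => b).isMaximal.mem_of_models
    exact Theory.models_of_models_theory
      (fun γ hγ => Theory.models_sentence_of_mem (hsub γ hγ)) hψ
  rw [Theory.CompleteType.not_mem_iff, Theory.CompleteType.formula_mem_typeOf, realize_aF,
    hbA] at hψb
  exact hψb le_rfl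

end Pool.Agent.Lib.MP_0da53c_lc
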