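import Pool.Agent.Lib.MP_0da53c_lc.Axm

/-!
Codes for elements over a countable parameter set.
-/

namespace Pool.Agent.Lib.MP_0da53c_lc

open FirstOrder FirstOrder.Language

universe u v w

instance : Countable F1 := by
  have : Function.Injective (fun f : F1 => match f with
    | .g n d h => (Sum.inl (n, d, h) : (ℕ × ℕ × H) ⊕ (ℕ × ℕ × ℕ × ℕ))
    | .p n d => Sum.inr (0, n, d, 0)
    | .s n d i => Sum.inr (1, n, d, i)
    | .dl n d i => Sum.inr (2, n, d, i)) := by
    intro f f' h
    cases f <;> cases f' <;> simp at h <;> simp [h]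
  exact this.countable

instance : Countable Cert := by
  have : Function.Injective (fun f : Cert => match f with
    | .V e => (Sum.inl e : ℕ ⊕ (ℕ × ℕ))
    | .Z k i => Sum.inr (k, i)) := by
    intro f f' h
    cases f <;> cases f' <;> simp at h <;> simp [h]
  exact this.countable

instance : Countable R1 := by
  have : Function.Injective (fun f : R1 => match f with
    | .S => (Sum.inl (0, 0, 0, 0) : (ℕ × ℕ × ℕ × ℕ) ⊕ (ℕ × ℕ × ℕ × Cert))
    | .X n d => Sum.inl (1, n, d, 0)
    | .B n d => Sum.inl (2, n, d, 0)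
    | .Im n d i => Sum.inl (3, n, d, i)
    | .KS k i => Sum.inl (4, k, i, 0)
    | .Rg n d r => Sum.inr (0, n, d, r)
    | .W n d r => Sum.inr (1, n, d, r)) := by
    intro f f' h
    cases f <;> cases f' <;> simp at h <;> simp [h]
  exact this.countable

instance : Countable Lg.Symbols := by
  have h1 : Countable (Σ l, Lg.Functions l) := by
    have : ∀ l, Countable (Lg.Functions l) := by
      intro l
      match l with
      | 0 => exact inferInstanceAs (Countable Empty)
      | 1 => exact inferInstanceAs (Countable F1)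
      | _ + 2 => exact inferInstanceAs (Countable Empty)
    infer_instance
  have h2 : Countable (Σ l, Lg.Relations l) := by
    have : ∀ l, Countable (Lg.Relations l) := by
      intro l
      match l with
      | 0 => exact inferInstanceAs (Countable Empty)
      | 1 => exact inferInstanceAs (Countable R1)
      | _ + 2 => exact inferInstanceAs (Countable Empty)
    infer_instance
  exact inferInstanceAs (Countable ((Σ l, Lg.Functions l) ⊕ (Σ l, Lg.Relations l)))

/-- Symbols used in codes. -/
inductive Sym (A : Type u) : Type u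
  | const (a : A)
  | junk
  | named (k i : ℕ)
  | kind (κ : ℕ∞)
  | fn (f : F1)
  | child (n d : ℕ) (o : Option ℤ) (b : Bool)

instance {A : Type u} [Countable A] : Countable (Sym A) := by
  have : Function.Injective (fun f : Sym A => match f with
    | .const a => (Sum.inl (Sum.inl a) :
        (A ⊕ (ℕ × ℕ × ℕ)) ⊕ (ℕ∞ ⊕ (F1 ⊕ (ℕ × ℕ × Option ℤ × Bool))))
    | .junk => Sum.inl (Sum.inr (0, 0, 0))
    | .named k i => Sum.inl (Sum.inr (1, k, i))
    | .kind κ => Sum.inr (Sum.inl κ)
    | .fn f => Sum.inr (Sum.inr (Sum.inl f))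
    | .child n d o b => Sum.inr (Sum.inr (Sum.inr (n, d, o, b)))) := by
    intro f f' h
    cases f <;> cases f' <;> simp at h <;> simp [h]
  exact this.countable

section
variable {N M : Type u} [Lg.Structure N] [Lg.Structure M] {A : Type v}

/-- Word of function symbols applied to an element. -/
def ev (w : List F1) (x : N) : N := w.foldr fn x

/-- The relation generated by two families of parameters. -/
def Gcl (c : A → N) (c' : A → M) : N → M → Prop := fun x y =>
  ∃ a w, x = ev w (c a) ∧ y = ev w (c' a)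

/-- Closure of the parameters. -/
def Cl (c : A → N) : N → Prop := fun x => ∃ a w, x = ev w (c a)

/-- Adding an element to the parameters. -/
def cx (c : A → N) (x : N) : Option A → N := fun o => o.elim x c

theorem IsoU.ev {G : N → M → Prop} (hG : IsoU G) {x : N} {y : M} (h : G x y) (w : List F1) :
    G (ev w x) (ev w y) := by
  induction w with
  | nil => exact h
  | cons f w ih => exact hG.fn f _ _ ih

theorem gcl_le {G : N → M → Prop} (hG : IsoU G) {c : A → N} {c' : A → M}
    (h : ∀ a, G (c a) (c' a)) : ∀ x y, Gcl c c' x y → G x y := by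
  rintro x y ⟨a, w, rfl, rfl⟩
  exact hG.ev (h a) w

theorem gcl_exact' {G : N → M → Prop} (hG : Exact G) {c : A → N} {c' : A → M}
    (h : ∀ a, G (c a) (c' a)) : Exact (Gcl c c') where
  iso :=
    { fn := by
        rintro f x y ⟨a, w, rfl, rfl⟩
        exact ⟨a, f :: w, rfl, rfl⟩
      rl := fun r x y hxy => hG.iso.rl r x y (gcl_le hG.iso h x y hxy)
      eq := fun h1 h2 => hG.iso.eq (gcl_le hG.iso h _ _ h1) (gcl_le hG.iso h _ _ h2) }
  ct := hG.ct.mono fun p hp => gcl_le hG.iso h _ _ hp
  cn := fun n d x y hxy => hG.cn n d x y (gcl_le hG.iso h x y hxy)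
  cs := fun n x y hxy => hG.cs n x y (gcl_le hG.iso h x y hxy)

theorem gcl_exact {G : N → M → Prop} (hG : Exact G) {c : A → N} {c' : A → M}
    (h : ∀ a, G (c a) (c' a)) {x : N} {y : M} (hxy : G x y) : Exact (Gcl (cx c x) (cx c' y)) := by
  refine gcl_exact' hG ?_
  intro a
  cases a with
  | none => exact hxy
  | some a => exact h a

/-- Codes of elements. -/
inductive Coded (c : A → N) : List (Sym A) → N → Prop
  | const (a : A) : Coded c [.const a] (c a)
  | junk (x : N) : Inert x → ¬ pS x → ¬ Cl c x → Coded c [.junk] x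
  | named (k i : ℕ) (x : N) : pKS k i x → ¬ Cl c x → Coded c [.named k i] x
  | kind (κ : ℕ∞) (x : N) : pS x → (∀ k i, ¬ pKS k i x) → (∀ n : ℕ, An n x ↔ κ ≤ n) → ¬ Cl c x →
      Coded c [.kind κ] x
  | fn (f : F1) (w : List (Sym A)) (x : N) : Coded c w x → Coded c (.fn f :: w) (fn f x)
  | child (n d : ℕ) (o : Option ℤ) (b : Bool) (w : List (Sym A)) (y : N) :
      pX n d y → Pure n d y → Coded c w (sp n d y) → ¬ Cl (cx c (sp n d y)) y →
      (∀ k : ℤ, o = some k ↔ pRg n d (.V d) (sg n d (Finsupp.single d k) y)) →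
      (b = true ↔ Bad n d y) → Coded c (.child n d o b :: w) y

theorem cl_dom {c : A → N} {c' : A → M} {x : N} (h : ¬ Cl c x) : ¬ ∃ y, Gcl c c' x y := by
  rintro ⟨y, a, w, h1, -⟩
  exact h ⟨a, w, h1⟩

theorem cl_ran {c : A → N} {c' : A → M} {y : M} (h : ¬ Cl c' y) : ¬ ∃ x, Gcl c c' x y := by
  rintro ⟨y, a, w, -, h1⟩
  exact h ⟨a, w, h1⟩

theorem gcl_self (c : A → N) (c' : A → M) (a : A) : Gcl c c' (c a) (c' a) := ⟨a, [], rfl, rfl⟩

/-- Equal codes give an exact partial isomorphism. -/
theorem coded_sound (TN : TM N) (TM' : TM M) {c : A → N} {c' : A → M} (h0 : Exact (Gcl c c'))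
    {w : List (Sym A)} {x : N} {y : M} (hx : Coded c w x) (hy : Coded c' w y) :
    Exact (Gcl (cx c x) (cx c' y)) := by
  have hle : ∀ {G : N → M → Prop}, (∀ a b, Gcl c c' a b → G a b) → ∀ a, G (c a) (c' a) :=
    fun h a => h _ _ (gcl_self c c' a)
  induction hx generalizing y with
  | const a =>
    cases hy
    exact gcl_exact h0 (gcl_self c c') (gcl_self c c' a)
  | junk x h1 h2 h3 =>
    cases hy with
    | junk _ k1 k2 k3 =>
      refine gcl_exact (G := ext0 (Gcl c c') x y) ?_ (hle fun a b h => Or.inl h) (Or.inr ⟨rfl, rfl⟩)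
      refine ext0_KR h0 TN TM' h1 k1 (iff_of_false h2 k2) ?_ (cl_dom h3) (cl_ran k3)
        (fun h => absurd h h2)
      exact fun k i => iff_of_false (fun h => h2 (TN.KS_S _ _ _ h)) (fun h => k2 (TM'.KS_S _ _ _ h))
  | named k i x h1 h2 =>
    cases hy with
    | named _ _ _ k1 k2 =>
      have hSx := TN.KS_S _ _ _ h1
      have hSy := TM'.KS_S _ _ _ k1
      refine gcl_exact (G := ext0 (Gcl c c') x y) ?_ (hle fun a b h => Or.inl h) (Or.inr ⟨rfl, rfl⟩)
      refine ext0_KR h0 TN TM' (fun n d => TN.sS n d x hSx) (fun n d => TM'.sS n d y hSy)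
        (iff_of_true hSx hSy) ?_ (cl_dom h2) (cl_ran k2) ?_
      · intro k' i'
        constructor
        · intro h
          obtain ⟨rfl, rfl⟩ := TN.KS_dis _ _ _ _ _ h h1
          exact k1
        · intro h
          obtain ⟨rfl, rfl⟩ := TM'.KS_dis _ _ _ _ _ h k1
          exact h1
      · intro _ n
        exact (TN.KS_A h1 n).trans (TM'.KS_A k1 n).symm
  | kind κ x h1 h2 h3 h4 =>
    cases hy with
    | kind _ _ k1 k2 k3 k4 =>
      refine gcl_exact (G := ext0 (Gcl c c') x y) ?_ (hle fun a b h => Or.inl h) (Or.inr ⟨rfl, rfl⟩)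
      refine ext0_KR h0 TN TM' (fun n d => TN.sS n d x h1) (fun n d => TM'.sS n d y k1)
        (iff_of_true h1 k1) (fun k i => iff_of_false (h2 k i) (k2 k i)) (cl_dom h4) (cl_ran k4) ?_
      exact fun _ n => (h3 n).trans (k3 n).symm
  | fn f w x _ ih =>
    cases hy with
    | fn _ _ x' hx' =>
      have h1 := ih hx'
      refine gcl_exact h1 (fun a => gcl_self (cx c x) (cx c' x') (some a)) ?_
      exact h1.iso.fn f _ _ (gcl_self (cx c x) (cx c' x') none)
  | child n d o b w x h1 h2 _ h4 h5 h6 ih =>
    cases hy with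
    | child _ _ _ _ _ _ k1 k2 k3 k4 k5 k6 =>
      have hp := ih k3
      have hB : Bad n d x ↔ Bad n d y := h6.symm.trans k6
      refine gcl_exact (G := ext (Gcl (cx c (sp n d x)) (cx c' (sp n d y))) n d x y) ?_
        (fun a => Or.inl (gcl_self (cx c (sp n d x)) (cx c' (sp n d y)) (some a)))
        (Or.inr ⟨[], 0, (TN.g_zero _ _ _ _ (by simp)).symm, (TM'.g_zero _ _ _ _ (by simp)).symm⟩)
      refine ext_KR hp TN TM' h1 k1 h2 k2 (cl_dom h4) (cl_ran k4)
        (gcl_self (cx c (sp n d x)) (cx c' (sp n d y)) none) ?_ (fun _ => hB) (fun _ => hB) hB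
      intro h
      rw [TN.U_g', TM'.U_g', ← h5, ← k5]

theorem coded_cl {c : A → N} {x : N} (hx : Cl c x) : ∃ w, Coded c w x := by
  obtain ⟨a, w, rfl⟩ := hx
  induction w with
  | nil => exact ⟨_, .const a⟩
  | cons f w ih =>
    obtain ⟨w', hw'⟩ := ih
    exact ⟨_, .fn f _ _ hw'⟩

theorem coded_cx {c : A → N} {x z : N} (hz : ∃ w, Coded c w z) (hx : Cl (cx c z) x) :
    ∃ w, Coded c w x := by
  obtain ⟨a, w, rfl⟩ := hx
  induction w with
  | nil =>
    cases a with
    | none => exact hz
    | some a => exact ⟨_, .const a⟩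
  | cons f w ih =>
    obtain ⟨w', hw'⟩ := ih
    exact ⟨_, .fn f _ _ hw'⟩

theorem TM.kind_exists (TN : TM N) (x : N) : ∃ κ : ℕ∞, ∀ n : ℕ, An n x ↔ κ ≤ n := by
  classical
  by_cases hE : ∃ n, An n x
  · refine ⟨(Nat.find hE : ℕ), fun n => ?_⟩
    rw [Nat.cast_le]
    exact ⟨fun h => Nat.find_min' hE h, fun h => TN.A_mono h (Nat.find_spec hE)⟩
  · refine ⟨⊤, fun n => ?_⟩
    push Not at hE
    exact iff_of_false (hE n) (by simp)

theorem coded_inert (TN : TM N) {c : A → N} {x : N} (hx : Inert x) : ∃ w, Coded c w x := by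
  by_cases h : Cl c x
  · exact coded_cl h
  by_cases hS : pS x
  · by_cases hK : ∃ k i, pKS k i x
    · obtain ⟨k, i, hk⟩ := hK
      exact ⟨_, .named k i x hk h⟩
    · push Not at hK
      obtain ⟨κ, hκ⟩ := TN.kind_exists x
      exact ⟨_, .kind κ x hS hK hκ h⟩
  · exact ⟨_, .junk x hx hS h⟩

theorem coded_pure (TN : TM N) {c : A → N} {n d : ℕ} {x : N} (hx : pX n d x) (hp : Pure n d x)
    (h : ∃ w, Coded c w (sp n d x)) : ∃ w, Coded c w x := by
  classical
  by_cases hc : Cl (cx c (sp n d x)) x
  · exact coded_cx h hc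
  obtain ⟨w, hw⟩ := h
  have ho : ∃ o : Option ℤ, ∀ k : ℤ, o = some k ↔
      pRg n d (.V d) (sg n d (Finsupp.single d k) x) := by
    by_cases hU : ∃ k, pRg n d (.V d) (sg n d (Finsupp.single d k) x)
    · obtain ⟨k, hk⟩ := hU
      refine ⟨some k, fun k' => ?_⟩
      rw [TN.U_off hx hk]
      simp [eq_comm]
    · push Not at hU
      exact ⟨none, fun k => iff_of_false (by simp) (hU k)⟩
  obtain ⟨o, ho⟩ := ho
  exact ⟨_, .child n d o (decide (Bad n d x)) w x hx hp hw hc ho (by simp)⟩

/-- Every element has a code. -/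
theorem coded_exists (TN : TM N) (c : A → N) (x : N) : ∃ w, Coded c w x := by
  by_cases hx : Inert x
  · exact coded_inert TN hx
  unfold Inert at hx
  push Not at hx
  obtain ⟨n, d, hx⟩ := hx
  induction d generalizing n x with
  | zero =>
    induction n generalizing x with
    | zero =>
      exact coded_pure TN hx (fun m i h => absurd h (by omega))
        (coded_inert TN (fun n d => TN.sS n d _ (TN.p_S _ _ hx)))
    | succ n ih =>
      by_cases hp : Pure (n + 1) 0 x
      · exact coded_pure TN hx hp (coded_inert TN (fun n d => TN.sS n d _ (TN.p_S _ _ hx)))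
      · unfold Pure at hp
        push Not at hp
        obtain ⟨m, i, hm, hi⟩ := hp
        obtain rfl : n = m := by omega
        obtain ⟨h1, h2⟩ := TN.Im_d _ _ _ _ hi
        obtain ⟨w, hw⟩ := ih _ h1
        rw [← h2]
        exact ⟨_, .fn _ _ _ hw⟩
  | succ d ihd =>
    induction n generalizing x with
    | zero =>
      exact coded_pure TN hx (fun m i h => absurd h (by omega)) (ihd _ _ (TN.p_X _ _ _ hx))
    | succ n ih =>
      by_cases hp : Pure (n + 1) (d + 1) x
      · exact coded_pure TN hx hp (ihd _ _ (TN.p_X _ _ _ hx))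
      · unfold Pure at hp
        push Not at hp
        obtain ⟨m, i, hm, hi⟩ := hp
        obtain rfl : n = m := by omega
        obtain ⟨h1, h2⟩ := TN.Im_d _ _ _ _ hi
        obtain ⟨w, hw⟩ := ih _ h1
        rw [← h2]
        exact ⟨_, .fn _ _ _ hw⟩

end

section
variable {N M : Type u} [Lg.Structure N] [Lg.Structure M] {A : Type v}

/-- Formula: the value of a term is bad. -/
def badT (n d : ℕ) (t : Lg.Term A) : Lg.Formula A :=
  ((Term.bdEqual (Term.var (Sum.inr (Fin.last 0))) (t.relabel Sum.inl)) ⊓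
    (bf (n - d) n d 0) : Lg.BoundedFormula A 1).ex

theorem realize_badT (n d : ℕ) (t : Lg.Term A) (v : A → M) :
    (badT n d t).Realize v ↔ Bad n d (t.realize v) := by
  unfold badT Bad Formula.Realize
  simp only [BoundedFormula.realize_ex, BoundedFormula.realize_inf,
    Term.realize_var, Sum.elim_inr, BoundedFormula.realize_bdEqual, Term.realize_relabel,
    Sum.elim_comp_inl, realize_bf, Fin.snoc_last, exists_eq_left]

/-- Formula: `An` holds at the value of a term. -/
def aT (n : ℕ) (t : Lg.Term A) : Lg.Formula A :=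
  (((frl (.X n 0) (Term.var (Sum.inr (Fin.last 0)))) ⊓
      (Term.bdEqual (tfn (.p n 0) (Term.var (Sum.inr (Fin.last 0))))
        (t.relabel Sum.inl))) ⊓ (bf n n 0 0) : Lg.BoundedFormula A 1).ex

theorem realize_aT (n : ℕ) (t : Lg.Term A) (v : A → M) :
    (aT n t).Realize v ↔ An n (t.realize v) := by
  unfold aT An Bad Formula.Realize
  simp only [BoundedFormula.realize_ex, BoundedFormula.realize_inf, realize_frl,
    Term.realize_var, Sum.elim_inr, BoundedFormula.realize_bdEqual, realize_tfn,
    Term.realize_relabel, Sum.elim_comp_inl,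
    realize_bf, Fin.snoc_last, and_assoc, Nat.sub_zero]

/-- Term for a word. -/
def tw (w : List F1) (a : A) : Lg.Term A := w.foldr tfn (Term.var a)

theorem realize_tw (w : List F1) (a : A) (v : A → M) : (tw w a).realize v = ev w (v a) := by
  induction w with
  | nil => rfl
  | cons f w ih =>
    change (tfn f (tw w a)).realize v = fn f (ev w (v a))
    rw [realize_tfn, ih]

/-- Families with the same type generate an exact partial isomorphism. -/
theorem exact_of_type [Countable A] {c : A → N} {c' : A → M}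
    (h : ∀ φ : Lg.Formula A, φ.Realize c ↔ φ.Realize c') : Exact (Gcl c c') where
  iso :=
    { fn := by
        rintro f x y ⟨a, w, rfl, rfl⟩
        exact ⟨a, f :: w, rfl, rfl⟩
      rl := by
        rintro r x y ⟨a, w, rfl, rfl⟩
        have := h (frl (n := 0) r ((tw w a).relabel Sum.inl))
        unfold Formula.Realize at this
        simpa only [realize_frl, Term.realize_relabel, Sum.elim_comp_inl, realize_tw] using this
      eq := by
        rintro x x' y y' ⟨a, w, rfl, rfl⟩ ⟨a', w', rfl, rfl⟩
        have := h (Term.equal (tw w a) (tw w' a'))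
        simpa only [Formula.realize_equal, realize_tw] using this }
  ct := by
    refine (Set.countable_range fun q : A × List F1 => (ev q.2 (c q.1), ev q.2 (c' q.1))).mono ?_
    rintro ⟨x, y⟩ ⟨a, w, rfl, rfl⟩
    exact ⟨(a, w), rfl⟩
  cn := by
    rintro n d x y ⟨a, w, rfl, rfl⟩ _ _
    have := h (badT n d (tw w a))
    simpa only [realize_badT, realize_tw] using this
  cs := by
    rintro n x y ⟨a, w, rfl, rfl⟩ _
    have := h (aT n (tw w a))
    simpa only [realize_aT, realize_tw] using this

end

end Pool.Agent.Lib.MP_0da53c_lc
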