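import Pool.Agent.Lib.MP_0da53c_lc.Lang

/-!
The standard model and the verification of `TM` for it.
-/

namespace Pool.Agent.Lib.MP_0da53c_lc

open FirstOrder FirstOrder.Language

/-- The universe of the standard model: names and nodes. -/
inductive M0 : Type
  | nm (k i : ℕ)
  | nd (k i : ℕ) (w : List ℕ) (n0 : ℕ) (p : List (Bool × ℤ))

/-- Admissible paths, deepest entry first: no two consecutive bad entries, and the root
may be bad only if `f` holds. -/
def ok (f : Prop) : List (Bool × ℤ) → Prop
  | [] => False
  | [x] => x.1 = true → f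
  | x :: y :: l => (x.1 = true → y.1 = false) ∧ ok f (y :: l)

/-- Action on paths. -/
def act (h : H) : List (Bool × ℤ) → List (Bool × ℤ)
  | [] => []
  | x :: l => (x.1, x.2 + h l.length) :: act h l

/-- The entry at depth `e` is `(false, 0)`. -/
def hd (e : ℕ) : List (Bool × ℤ) → Prop
  | [] => False
  | x :: l => if l.length = e then x = (false, 0) else hd e l

theorem act_length (h : H) (p : List (Bool × ℤ)) : (act h p).length = p.length := by
  induction p with
  | nil => rfl
  | cons x l ih => simp [act, ih]

theorem ok_act (f : Prop) (h : H) (p : List (Bool × ℤ)) : ok f (act h p) ↔ ok f p := by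
  induction p with
  | nil => rfl
  | cons x l ih =>
    cases l with
    | nil => simp [act, ok]
    | cons y l =>
      simp only [act, ok] at ih ⊢
      rw [ih]

theorem act_add (h h' : H) (p : List (Bool × ℤ)) : act h (act h' p) = act (h + h') p := by
  induction p with
  | nil => rfl
  | cons x l ih =>
    simp only [act, ih, act_length, Finsupp.add_apply]
    congr 2
    ring

theorem act_zero (h : H) (p : List (Bool × ℤ)) (hp : ∀ j < p.length, h j = 0) : act h p = p := by
  induction p with
  | nil => rfl
  | cons x l ih =>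
    simp only [act]
    rw [ih (fun j hj => hp j (by simp; omega)), hp l.length (by simp), add_zero]

theorem act_free (h : H) (p : List (Bool × ℤ)) (hp : act h p = p) : ∀ j < p.length, h j = 0 := by
  induction p with
  | nil => intro j hj; simp at hj
  | cons x l ih =>
    simp only [act, List.cons.injEq] at hp
    obtain ⟨h1, h2⟩ := hp
    intro j hj
    by_cases hjl : j = l.length
    · have := congrArg Prod.snd h1
      simp at this
      rw [hjl]
      exact this
    · exact ih h2 j (by simp at hj; omega)

theorem hd_gt {e : ℕ} {p : List (Bool × ℤ)} (h : p.length ≤ e) : ¬ hd e p := by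
  induction p with
  | nil => exact id
  | cons x l ih =>
    simp only [List.length_cons] at h
    simp only [hd]
    rw [if_neg (by omega)]
    exact ih (by omega)

theorem hd_act {e : ℕ} {p : List (Bool × ℤ)} {h : H} (he : h e = 0) : hd e (act h p) ↔ hd e p := by
  induction p with
  | nil => rfl
  | cons x l ih =>
    simp only [act, hd, act_length]
    split_ifs with h1
    · rw [h1, he, add_zero]
    · exact ih

namespace M0

/-- The label of the deepest entry. -/
def lab : M0 → Prop
  | nd _ _ _ _ (x :: _) => x.1 = true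
  | _ => False

def mS : M0 → Prop
  | nm _ _ => True
  | _ => False

def mX (n d : ℕ) : M0 → Prop
  | nm _ _ => False
  | nd k _ w n0 p => ok (n0 = k) p ∧ n = n0 + w.length ∧ p.length = d + 1

def mIm (n d j : ℕ) : M0 → Prop
  | nm _ _ => False
  | nd k i w n0 p => mX (n + 1) d (nd k i w n0 p) ∧ w.head? = some j

def reg : Cert → M0 → Prop
  | .V e, nd _ _ w _ p => hd e p ∧ (e = 0 → w = [])
  | .Z k i, nd k' i' _ _ _ => k' = k ∧ i' = i
  | _, _ => False

def rg (h : H) : M0 → M0
  | nm k i => nm k i
  | nd k i w n0 p => nd k i w n0 (act h p)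

def rp : M0 → M0
  | nd k i w n0 (_ :: y :: l) => nd k i w n0 (y :: l)
  | nd k i _ _ _ => nm k i
  | nm k i => nm k i

def rs (j : ℕ) : M0 → M0
  | nd k i w n0 p => nd k i (j :: w) n0 p
  | nm k i => nm k i

def rd : M0 → M0
  | nd k i w n0 p => nd k i w.tail n0 p
  | nm k i => nm k i

open Classical in
/-- Interpretation of function symbols. -/
noncomputable def fI : F1 → M0 → M0
  | .g n d h => fun x => if mX n d x then rg h x else x
  | .p n d => fun x => if mX n d x then rp x else x
  | .s n d i => fun x => if mX n d x then rs i x else x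
  | .dl n d i => fun x => if mIm n d i x then rd x else x

/-- Interpretation of relation symbols. -/
def rI : R1 → M0 → Prop
  | .S => mS
  | .X n d => mX n d
  | .B n d => fun x => mX n d x ∧ n ≤ d ∧ lab x
  | .Im n d i => mIm n d i
  | .Rg n d r => fun x => mX n d x ∧ reg r x
  | .W n d r => fun x => (mX n d x ∧ reg r x) ∧ lab x
  | .KS k i => fun x => x = nm k i

noncomputable instance : Lg.Structure M0 where
  funMap := fun {n} f x => match n, f, x with
    | 1, f, x => fI f (x 0)
    | 0, f, _ => Empty.elim f
    | _ + 2, f, _ => Empty.elim f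
  RelMap := fun {n} r x => match n, r, x with
    | 1, r, x => rI r (x 0)
    | 0, r, _ => Empty.elim r
    | _ + 2, r, _ => Empty.elim r

instance : Nonempty M0 := ⟨nm 0 0⟩

variable {n d : ℕ} {x : M0}

theorem e_g (h : H) (hx : mX n d x) : sg n d h x = rg h x := if_pos hx
theorem e_g' (h : H) (hx : ¬ mX n d x) : sg n d h x = x := if_neg hx
theorem e_p (hx : mX n d x) : sp n d x = rp x := if_pos hx
theorem e_p' (hx : ¬ mX n d x) : sp n d x = x := if_neg hx
theorem e_s (i : ℕ) (hx : mX n d x) : ss n d i x = rs i x := if_pos hx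
theorem e_s' (i : ℕ) (hx : ¬ mX n d x) : ss n d i x = x := if_neg hx
theorem e_d (i : ℕ) (hx : mIm n d i x) : sd n d i x = rd x := if_pos hx
theorem e_d' (i : ℕ) (hx : ¬ mIm n d i x) : sd n d i x = x := if_neg hx

theorem X_rg (h : H) : mX n d (rg h x) ↔ mX n d x := by
  cases x with
  | nm => exact Iff.rfl
  | nd => simp only [rg, mX, ok_act, act_length]

theorem Im_rg (i : ℕ) (h : H) : mIm n d i (rg h x) ↔ mIm n d i x := by
  cases x with
  | nm => exact Iff.rfl
  | nd => simp only [rg, mIm, mX, ok_act, act_length]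

theorem rg_add (h h' : H) : rg h (rg h' x) = rg (h + h') x := by
  cases x with
  | nm => rfl
  | nd => simp only [rg, act_add]

theorem lab_rg (h : H) : lab (rg h x) ↔ lab x := by
  cases x with
  | nm => exact Iff.rfl
  | nd k i w n0 p =>
    cases p with
    | nil => exact Iff.rfl
    | cons y l => simp only [rg, lab, act]

theorem lab_rs (i : ℕ) : lab (rs i x) ↔ lab x := by
  cases x with
  | nm => exact Iff.rfl
  | nd k i w n0 p =>
    cases p with
    | nil => exact Iff.rfl
    | cons y l => simp only [rs, lab]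

theorem X_rp (hx : mX n (d + 1) x) : mX n d (rp x) := by
  cases x with
  | nm => exact hx.elim
  | nd k i w n0 p =>
    obtain ⟨h1, h2, h3⟩ := hx
    match p, h1, h3 with
    | y :: z :: l, h1, h3 => exact ⟨h1.2, h2, by simpa using h3⟩

theorem S_rp (hx : mX n 0 x) : mS (rp x) := by
  cases x with
  | nm => exact hx.elim
  | nd k i w n0 p =>
    obtain ⟨h1, h2, h3⟩ := hx
    match p, h1, h3 with
    | [y], h1, h3 => trivial

theorem X_rs (i : ℕ) (hx : mX n d x) : mX (n + 1) d (rs i x) := by
  cases x with
  | nm => exact hx.elim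
  | nd k i w n0 p =>
    obtain ⟨h1, h2, h3⟩ := hx
    exact ⟨h1, by simp; omega, h3⟩

theorem Im_rs (i : ℕ) (hx : mX n d x) : mIm n d i (rs i x) := by
  cases x with
  | nm => exact hx.elim
  | nd k i w n0 p => exact ⟨X_rs _ hx, rfl⟩

theorem Im_X' {i : ℕ} (hx : mIm n d i x) : mX (n + 1) d x := by
  cases x with
  | nm => exact hx.elim
  | nd k i w n0 p => exact hx.1

theorem Im_rd {i : ℕ} (hx : mIm n d i x) : mX n d (rd x) ∧ rs i (rd x) = x := by
  cases x with
  | nm => exact hx.elim
  | nd k j w n0 p =>
    obtain ⟨⟨h1, h2, h3⟩, h4⟩ := hx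
    match w, h4, h2 with
    | i' :: w, h4, h2 =>
      simp only [List.head?_cons, Option.some.injEq] at h4
      subst h4
      exact ⟨⟨h1, by simp at h2 ⊢; omega, h3⟩, rfl⟩

theorem child_ok {y : M0} (hy : mX n (d + 1) y) (hp : lab (rp y)) : ¬ lab y := by
  cases y with
  | nm => exact hy.elim
  | nd k i w n0 p =>
    obtain ⟨h1, h2, h3⟩ := hy
    match p, h1, h3, hp with
    | y :: z :: l, h1, h3, hp =>
      intro hc
      have h4 := h1.1 hc
      have h5 : z.1 = true := hp
      rw [h4] at h5
      exact Bool.false_ne_true h5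

/-- A node has a bad child if it is good. -/
theorem bad_child' (hx : mX n d x) (hl : ¬ lab x) :
    ∃ y, mX n (d + 1) y ∧ rp y = x ∧ lab y ∧ ∀ e ≤ d, (∀ r, r ≠ Cert.V (d + 1) → reg r x → reg r y) := by
  cases x with
  | nm => exact hx.elim
  | nd k i w n0 p =>
    obtain ⟨h1, h2, h3⟩ := hx
    match p, h1, h3, hl with
    | z :: l, h1, h3, hl =>
      refine ⟨nd k i w n0 ((true, 0) :: z :: l), ⟨⟨fun _ => ?_, h1⟩, h2, by simpa using h3⟩, rfl, rfl, ?_⟩
      · have : ¬ z.1 = true := hl
        simpa using this
      · intro e he r hr hreg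
        cases r with
        | V e' =>
          refine ⟨?_, hreg.2⟩
          have h4 := hreg.1
          simp only [hd] at h4 ⊢
          rw [if_neg]
          · exact h4
          · rintro rfl
            simp at h3
            apply hr
            simp [h3]
        | Z k' i' => exact hreg

end M0

open M0

theorem std : TM M0 where
  sX n d n' d' x h h' := by
    cases x with
    | nm => exact h.elim
    | nd =>
      obtain ⟨_, h1, h2⟩ := h
      obtain ⟨_, h3, h4⟩ := h'
      omega
  sS n d x h h' := by
    cases x with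
    | nm => exact h'.elim
    | nd => exact h.elim
  g_X n d h x hx := by
    have hx : mX n d x := hx
    rw [e_g h hx]
    exact (X_rg h).2 hx
  g_out n d h x hx := e_g' h hx
  g_add n d h h' x := by
    by_cases hx : mX n d x
    · rw [e_g h' hx, e_g h ((X_rg h').2 hx), e_g _ hx, rg_add]
    · rw [e_g' h' hx, e_g' h hx, e_g' _ hx]
  g_zero n d h x hh := by
    by_cases hx : mX n d x
    · rw [e_g h hx]
      cases x with
      | nm => rfl
      | nd k i w n0 p =>
        simp only [rg]
        rw [act_zero h p (fun j hj => hh j (by have := hx.2.2; omega))]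
    · rw [e_g' h hx]
  g_free n d h x hx hg := by
    have hx : mX n d x := hx
    rw [e_g h hx] at hg
    cases x with
    | nm => exact hx.elim
    | nd k i w n0 p =>
      simp only [rg, M0.nd.injEq, true_and] at hg
      intro j hj
      exact act_free h p hg j (by have := hx.2.2; omega)
  p_X n d x hx := by
    have hx : mX n (d + 1) x := hx
    rw [e_p hx]
    exact X_rp hx
  p_S n x hx := by
    have hx : mX n 0 x := hx
    rw [e_p hx]
    exact S_rp hx
  p_out n d x hx := e_p' hx
  p_g n d h x hx := by
    have hx : mX n (d + 1) x := hx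
    rw [e_g h hx, e_p ((X_rg h).2 hx), e_p hx, e_g h (X_rp hx)]
    cases x with
    | nm => rfl
    | nd k i w n0 p =>
      match p, hx.2.2 with
      | y :: z :: l, _ => rfl
  p_g0 n h x hx := by
    have hx : mX n 0 x := hx
    rw [e_g h hx, e_p ((X_rg h).2 hx), e_p hx]
    cases x with
    | nm => rfl
    | nd k i w n0 p =>
      match p, hx.2.2 with
      | [y], _ => rfl
  s_X n d i x hx := by
    have hx : mX n d x := hx
    rw [e_s i hx]
    exact X_rs i hx
  s_out n d i x hx := e_s' i hx
  s_g n d i h x hx := by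
    have hx : mX n d x := hx
    rw [e_g h hx, e_s i ((X_rg h).2 hx), e_s i hx, e_g h (X_rs i hx)]
    cases x with
    | nm => rfl
    | nd => rfl
  s_p n d i x hx := by
    have hx : mX n (d + 1) x := hx
    rw [e_s i hx, e_p hx, e_p (X_rs i hx), e_s i (X_rp hx)]
    cases x with
    | nm => rfl
    | nd k i w n0 p =>
      match p, hx.2.2 with
      | y :: z :: l, _ => rfl
  s_p0 n i x hx := by
    have hx : mX n 0 x := hx
    rw [e_s i hx, e_p hx, e_p (X_rs i hx)]
    cases x with
    | nm => rfl
    | nd k i w n0 p =>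
      match p, hx.2.2 with
      | [y], _ => rfl
  d_s n d i x hx := by
    have hx : mX n d x := hx
    rw [e_s i hx, e_d i (Im_rs i hx)]
    cases x with
    | nm => rfl
    | nd => rfl
  s_Im n d i x hx := by
    have hx : mX n d x := hx
    rw [e_s i hx]
    exact Im_rs i hx
  Im_X n d i x hx := Im_X' hx
  Im_d n d i x hx := by
    have hx : mIm n d i x := hx
    rw [e_d i hx]
    obtain ⟨h1, h2⟩ := Im_rd hx
    refine ⟨h1, ?_⟩
    rw [e_s i h1]
    exact h2
  d_out n d i x hx := e_d' i hx
  Im_u n d i j x hi hj := by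
    cases x with
    | nm => exact hi.elim
    | nd =>
      have h1 := hi.2
      have h2 := hj.2
      rw [h1] at h2
      simpa using h2
  Im_p n d i x hx := by
    have hx : mX (n + 1) (d + 1) x := hx
    rw [e_p hx]
    cases x with
    | nm => exact hx.elim
    | nd k j w n0 p =>
      have hx' := X_rp hx
      match p, hx.2.2, hx, hx' with
      | y :: z :: l, _, hx, hx' =>
        exact ⟨fun h => ⟨hx', h.2⟩, fun h => ⟨hx, h.2⟩⟩
  B_X n d x hx := ⟨hx.1, hx.2.1⟩
  B_g n d h x hx := by
    have hx : mX n d x := hx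
    rw [e_g h hx]
    change (mX n d (rg h x) ∧ n ≤ d ∧ lab (rg h x)) ↔ (mX n d x ∧ n ≤ d ∧ lab x)
    rw [X_rg, lab_rg]
  B_s n d i x hn hx := by
    have hx : mX n d x := hx
    rw [e_s i hx]
    change (mX (n + 1) d (rs i x) ∧ n + 1 ≤ d ∧ lab (rs i x)) ↔ (mX n d x ∧ n ≤ d ∧ lab x)
    rw [lab_rs]
    have := X_rs i hx
    exact ⟨fun h => ⟨hx, by omega, h.2.2⟩, fun h => ⟨this, hn, h.2.2⟩⟩
  B_bad n d x y hn hx hy hp := by
    have hy : mX n (d + 1) y := hy
    intro hc
    rw [e_p hy] at hp
    have h1 : lab (rp y) := by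
      rw [hp]
      exact hx.2.2
    exact child_ok hy h1 hc.2.2
  B_good n d x hn hx hb := by
    have hx : mX n d x := hx
    have hl : ¬ lab x := fun hc => hb ⟨hx, hn, hc⟩
    obtain ⟨y, h1, h2, h3, -⟩ := bad_child' hx hl
    exact ⟨y, h1, by rw [e_p h1, h2], h1, by omega, h3⟩
  Rg_X n d r x hx := hx.1
  Rg_V_lt n d e x he hx := by
    have hx : mX n (d + 1) x := hx
    rw [e_p hx]
    have hx' := X_rp hx
    cases x with
    | nm => exact hx.elim
    | nd k j w n0 p =>
      match p, hx.2.2, hx, hx' with
      | y :: z :: l, hl, hx, hx' =>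
        change (_ ∧ _) ↔ (_ ∧ _)
        refine ⟨fun h => ⟨hx', ?_⟩, fun h => ⟨hx, ?_⟩⟩
        · refine ⟨?_, h.2.2⟩
          have h4 := h.2.1
          simp only [hd] at h4 ⊢
          rwa [if_neg (by simp at hl ⊢; omega)] at h4
        · refine ⟨?_, h.2.2⟩
          have h4 := h.2.1
          simp only [hd] at h4 ⊢
          rwa [if_neg (by simp at hl ⊢; omega)]
  Rg_V_gt n d e x he hx := by
    obtain ⟨h1, h2⟩ := hx
    cases x with
    | nm => exact h1.elim
    | nd k j w n0 p => exact hd_gt (by have := h1.2.2; omega) h2.1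
  Rg_Z n d k i x hx := by
    have hx : mX n (d + 1) x := hx
    rw [e_p hx]
    have hx' := X_rp hx
    cases x with
    | nm => exact hx.elim
    | nd k j w n0 p =>
      match p, hx.2.2, hx, hx' with
      | y :: z :: l, hl, hx, hx' =>
        exact ⟨fun h => ⟨hx', h.2⟩, fun h => ⟨hx, h.2⟩⟩
  Rg_Z0 n k i x hx := by
    have hx : mX n 0 x := hx
    rw [e_p hx]
    cases x with
    | nm => exact hx.elim
    | nd k' i' w n0 p =>
      match p, hx.2.2, hx with
      | [y], hl, hx =>
        change (_ ∧ _) ↔ nm _ _ = nm _ _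
        rw [M0.nm.injEq]
        exact ⟨fun h => h.2, fun h => ⟨hx, h⟩⟩
  U_ex n d x hx := by
    have hx : mX n d x := hx
    cases x with
    | nm => exact hx.elim
    | nd k i w n0 p =>
      match p, hx with
      | z :: l, hx =>
        have hy : mX n (d + 1) (nd k i w n0 ((false, 0) :: z :: l)) :=
          ⟨⟨fun h => absurd h (by simp), hx.1⟩, hx.2.1, by simpa using hx.2.2⟩
        refine ⟨nd k i w n0 ((false, 0) :: z :: l), hy, ?_, hy, ?_, fun h => by omega⟩
        · rw [e_p hy]
          rfl
        · have h2 : (z :: l).length = d + 1 := hx.2.2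
          simp only [hd]
          rw [if_pos h2]
          trivial
  U_ex0 n x hx := by
    cases x with
    | nd => exact hx.elim
    | nm k i =>
      have hy : mX n 0 (nd k i [] n [(false, 0)]) := ⟨fun h => absurd h (by simp), rfl, rfl⟩
      refine ⟨nd k i [] n [(false, 0)], hy, ?_, hy, ?_, fun _ => rfl⟩
      · rw [e_p hy]
        rfl
      · simp [hd]
  U_uni n d x y hx hy hxy := by
    obtain ⟨hx, hx1⟩ : mX n d x ∧ reg (.V d) x := hx
    obtain ⟨hy, hy1⟩ : mX n d y ∧ reg (.V d) y := hy
    rw [e_p hx, e_p hy] at hxy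
    cases x with
    | nm => exact hx.elim
    | nd k i w n0 p =>
      cases y with
      | nm => exact hy.elim
      | nd k' i' w' n0' p' =>
        match p, p', hx, hy, hx1, hy1, hxy with
        | [x], [y], hx, hy, hx1, hy1, hxy =>
          have e1 := hx1.1
          have e2 := hy1.1
          have hd0 : d = 0 := by have := hx.2.2; simpa using this.symm
          subst hd0
          simp only [hd, List.length_nil, if_true] at e1 e2
          have w1 := hx1.2 rfl
          have w2 := hy1.2 rfl
          subst w1 w2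
          simp only [rp, M0.nm.injEq] at hxy
          obtain ⟨rfl, rfl⟩ := hxy
          have h1 := hx.2.1
          have h2 := hy.2.1
          simp only [List.length_nil, add_zero] at h1 h2
          rw [e1, e2, ← h1, ← h2]
        | x :: x' :: l, y :: y' :: l', hx, hy, hx1, hy1, hxy =>
          have e1 := hx1.1
          have e2 := hy1.1
          have l1 := hx.2.2
          have l2 := hy.2.2
          simp only [List.length_cons, Nat.add_right_cancel_iff] at l1 l2
          simp only [hd, List.length_cons, l1, l2, if_true] at e1 e2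
          simp only [rp, M0.nd.injEq] at hxy
          obtain ⟨rfl, rfl, rfl, rfl, h5⟩ := hxy
          rw [e1, e2, h5]
        | [x], y :: y' :: l', hx, hy, hx1, hy1, hxy => simp [rp] at hxy
        | x :: x' :: l', [y], hx, hy, hx1, hy1, hxy => simp [rp] at hxy
  U_g n d h x hh := by
    by_cases hx : mX n d x
    · rw [e_g h hx]
      change (mX n d (rg h x) ∧ reg (.V d) (rg h x)) ↔ (mX n d x ∧ reg (.V d) x)
      rw [X_rg]
      cases x with
      | nm => exact Iff.rfl
      | nd => simp only [rg, reg, hd_act hh]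
    · rw [e_g' h hx]
  U_s n d i x hx := by
    have hx : mX n (d + 1) x := hx
    rw [e_s i hx]
    have := X_rs i hx
    cases x with
    | nm => exact hx.elim
    | nd =>
      exact ⟨fun h => ⟨hx, h.2.1, fun h => by omega⟩, fun h => ⟨this, h.2.1, fun h => by omega⟩⟩
  U_Im n i x hx hc := by
    cases x with
    | nm => exact hx.elim
    | nd =>
      have h1 := hc.2.2 rfl
      have h2 := hx.2
      rw [h1] at h2
      simp at h2
  W_Rg n d r x hx := hx.1
  W_bad n d r x y hx hy hp hc := by
    have hy : mX n (d + 1) y := hy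
    rw [e_p hy] at hp
    have h1 : lab (rp y) := by
      rw [hp]
      exact hx.2
    exact child_ok hy h1 hc.2
  W_good n d r x hx hb := by
    have hl : ¬ lab x := fun hc => hb ⟨hx, hc⟩
    obtain ⟨hx1, hx2⟩ : mX n d x ∧ reg r x := hx
    obtain ⟨y, h1, h2, h3, h4⟩ := bad_child' hx1 hl
    refine ⟨y, h1, by rw [e_p h1, h2], ⟨h1, h4 0 (by omega) r ?_ hx2⟩, h3⟩
    rintro rfl
    cases x with
    | nm => exact hx1.elim
    | nd k i w n0 p => exact hd_gt (by have := hx1.2.2; omega) hx2.1
  W_B n d r x hn hx := ⟨fun h => ⟨hx.1, hn, h.2⟩, fun h => ⟨hx, h.2.2⟩⟩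
  W_U n d x hx := by
    obtain ⟨⟨h1, h2⟩, h3⟩ := hx
    cases x with
    | nm => exact h1.elim
    | nd k i w n0 p =>
      match p, h1, h2, h3 with
      | x :: l, h1, h2, h3 =>
        have e1 := h2.1
        have e2 := h1.2.2
        simp only [List.length_cons, Nat.add_right_cancel_iff] at e2
        simp only [hd, e2, if_true] at e1
        have e3 : x.1 = true := h3
        rw [e1] at e3
        simp at e3
  W_Zlt n k i x hn hx := by
    obtain ⟨⟨h1, h2⟩, h3⟩ := hx
    cases x with
    | nm => exact h1.elim
    | nd k' i' w n0 p =>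
      match p, h1, h2, h3 with
      | [x], h1, h2, h3 =>
        obtain ⟨rfl, rfl⟩ := h2
        have e1 := h1.1 h3
        have e2 := h1.2.1
        omega
  W_Zeq k i x hx := by
    obtain rfl : x = nm k i := hx
    have hy : mX k 0 (nd k i [] k [(true, 0)]) := ⟨fun _ => rfl, rfl, rfl⟩
    refine ⟨nd k i [] k [(true, 0)], hy, ?_, ⟨hy, rfl, rfl⟩, rfl⟩
    rw [e_p hy]
    rfl
  KS_S k i x hx := by
    obtain rfl : x = nm k i := hx
    trivial
  KS_ex k i := ⟨nm k i, rfl⟩
  KS_uni k i x y hx hy := by
    obtain rfl : x = nm k i := hx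
    obtain rfl : y = nm k i := hy
    rfl
  KS_dis k i k' i' x hx hy := by
    obtain rfl : x = nm k i := hx
    have : nm k i = nm k' i' := hy
    rwa [M0.nm.injEq] at this

end Pool.Agent.Lib.MP_0da53c_lc
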