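import Mathlib

/-!
Formula classes `∃_m`, `∀_m` and a transfer criterion for them.
-/

namespace Pool.Agent.Lib.MP_0da53c_lc

open FirstOrder FirstOrder.Language

universe u v w w'

variable {L : FirstOrder.Language.{u, v}} {α : Type w}

/-- Closure of a class `P` of formulas under existential (`b = true`) or universal
(`b = false`) quantification. -/
inductive QC (P : ∀ n : ℕ, L.BoundedFormula α n → Prop) (b : Bool) :
    ∀ n : ℕ, L.BoundedFormula α n → Prop
  | base {n : ℕ} {φ : L.BoundedFormula α n} : P n φ → QC P b n φ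
  | ex {n : ℕ} {φ : L.BoundedFormula α (n + 1)} : b = true → QC P b (n + 1) φ → QC P b n φ.ex
  | all {n : ℕ} {φ : L.BoundedFormula α (n + 1)} : b = false → QC P b (n + 1) φ → QC P b n φ.all

/-- `Q true m n φ`: `φ` is an `∃_m`-formula; `Q false m n φ`: `φ` is a `∀_m`-formula. -/
def Q : Bool → ℕ → ∀ n : ℕ, L.BoundedFormula α n → Prop
  | _, 0 => fun _ φ => φ.IsQF
  | b, m + 1 => QC (Q (!b) m) b

theorem Q_zero (b : Bool) (n : ℕ) (φ : L.BoundedFormula α n) : Q b 0 n φ ↔ φ.IsQF := by
  cases b <;> exact Iff.rfl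

theorem Q_succ (b : Bool) (m n : ℕ) (φ : L.BoundedFormula α n) :
    Q b (m + 1) n φ ↔ QC (Q (!b) m) b n φ := by
  cases b <;> exact Iff.rfl

theorem Q_of_isQF {n : ℕ} {φ : L.BoundedFormula α n} (h : φ.IsQF) : ∀ (m : ℕ) (b : Bool), Q b m n φ
  | 0, b => (Q_zero b n φ).2 h
  | m + 1, b => (Q_succ b m n φ).2 (.base (Q_of_isQF h m _))

theorem Q_of_isPrenex {n : ℕ} {φ : L.BoundedFormula α n} (h : φ.IsPrenex) :
    ∃ m : ℕ, ∀ m', m ≤ m' → ∀ b : Bool, Q b m' n φ := by
  induction h with
  | of_isQF h => exact ⟨0, fun m' _ b => Q_of_isQF h m' b⟩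
  | all _ ih =>
    obtain ⟨m, hm⟩ := ih
    refine ⟨m + 2, fun m' hm' b => ?_⟩
    obtain ⟨k, rfl⟩ : ∃ k, m' = k + 2 := ⟨m' - 2, by omega⟩
    cases b with
    | false => exact (Q_succ _ _ _ _).2 (.all rfl (.base (hm (k + 1) (by omega) _)))
    | true =>
      refine (Q_succ _ _ _ _).2 (.base ((Q_succ _ _ _ _).2 (.all rfl (.base (hm k (by omega) _)))))
  | ex _ ih =>
    obtain ⟨m, hm⟩ := ih
    refine ⟨m + 2, fun m' hm' b => ?_⟩
    obtain ⟨k, rfl⟩ : ∃ k, m' = k + 2 := ⟨m' - 2, by omega⟩
    cases b with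
    | true => exact (Q_succ _ _ _ _).2 (.ex rfl (.base (hm (k + 1) (by omega) _)))
    | false =>
      refine (Q_succ _ _ _ _).2 (.base ((Q_succ _ _ _ _).2 (.ex rfl (.base (hm k (by omega) _)))))

/-! ### Partial isomorphisms -/

section
variable {N M : Type*} [L.Structure N] [L.Structure M]

/-- A relation between two structures which is a partial isomorphism closed under functions. -/
structure Iso (L : FirstOrder.Language.{u, v}) {N M : Type*} [L.Structure N] [L.Structure M]
    (G : N → M → Prop) : Prop where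
  fn : ∀ {n : ℕ} (f : L.Functions n) (x : Fin n → N) (y : Fin n → M),
    (∀ i, G (x i) (y i)) → G (Structure.funMap f x) (Structure.funMap f y)
  rl : ∀ {n : ℕ} (r : L.Relations n) (x : Fin n → N) (y : Fin n → M),
    (∀ i, G (x i) (y i)) → (Structure.RelMap r x ↔ Structure.RelMap r y)
  eq : ∀ {x x' : N} {y y' : M}, G x y → G x' y' → (x = x' ↔ y = y')

theorem Iso.flip {G : N → M → Prop} (h : Iso L G) : Iso L (flip G) where
  fn f x y hxy := h.fn f y x hxy
  rl r x y hxy := (h.rl r y x hxy).symm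
  eq hx hy := (h.eq hx hy).symm

theorem Iso.term {G : N → M → Prop} (h : Iso L G) {β : Type*} {v : β → N} {w : β → M}
    (hv : ∀ a, G (v a) (w a)) (t : L.Term β) : G (t.realize v) (t.realize w) := by
  induction t with
  | var a => exact hv a
  | func f ts ih => exact h.fn f _ _ ih

theorem Iso.sumElim {G : N → M → Prop} {v : α → N} {w : α → M}
    (hv : ∀ a, G (v a) (w a)) {n : ℕ} {xs : Fin n → N} {ys : Fin n → M}
    (hx : ∀ i, G (xs i) (ys i)) (a : α ⊕ Fin n) : G (Sum.elim v xs a) (Sum.elim w ys a) := by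
  cases a with
  | inl a => exact hv a
  | inr i => exact hx i

theorem Iso.qf {G : N → M → Prop} (h : Iso L G) {v : α → N} {w : α → M}
    (hv : ∀ a, G (v a) (w a)) {n : ℕ} {φ : L.BoundedFormula α n} (hφ : φ.IsQF)
    {xs : Fin n → N} {ys : Fin n → M} (hx : ∀ i, G (xs i) (ys i)) :
    φ.Realize v xs ↔ φ.Realize w ys := by
  induction hφ with
  | falsum => exact Iff.rfl
  | of_isAtomic ha =>
    cases ha with
    | equal t₁ t₂ =>
      simp only [BoundedFormula.realize_bdEqual]
      exact h.eq (h.term (Iso.sumElim hv hx) t₁) (h.term (Iso.sumElim hv hx) t₂)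
    | rel R ts =>
      simp only [BoundedFormula.realize_rel]
      exact h.rl R _ _ fun i => h.term (Iso.sumElim hv hx) (ts i)
  | imp _ _ ih1 ih2 => simp only [BoundedFormula.realize_imp, ih1, ih2]

theorem snocG {G : N → M → Prop} {n : ℕ} {xs : Fin n → N} {ys : Fin n → M}
    (hx : ∀ i, G (xs i) (ys i)) {x : N} {y : M} (hxy : G x y) :
    ∀ i, G ((Fin.snoc xs x : Fin (n + 1) → N) i) ((Fin.snoc ys y : Fin (n + 1) → M) i) := by
  intro i
  refine Fin.lastCases ?_ (fun i => ?_) i
  · simpa using hxy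
  · simpa using hx i

/-- Forth property of a class of relations. -/
def Forth (P : (N → M → Prop) → Prop) : Prop :=
  ∀ G, P G → ∀ x : N, ∃ G', P G' ∧ (∀ a b, G a b → G' a b) ∧ ∃ y, G' x y

/-- Data of a graded back-and-forth system. -/
structure System (K : ℕ → (N → M → Prop) → Prop) (K' : ℕ → (M → N → Prop) → Prop) : Prop where
  iso : ∀ m G, K m G → Iso L G
  iso' : ∀ m G, K' m G → Iso L G
  forth : ∀ m, Forth (K (m + 1))
  forth' : ∀ m, Forth (K' (m + 1))
  down : ∀ m G, K (m + 1) G → K' m (flip G)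
  down' : ∀ m G, K' (m + 1) G → K m (flip G)

theorem System.symm {K : ℕ → (N → M → Prop) → Prop} {K' : ℕ → (M → N → Prop) → Prop}
    (h : System (L := L) K K') : System (L := L) K' K :=
  ⟨h.iso', h.iso, h.forth', h.forth, h.down', h.down⟩

end

theorem System.transfer (m : ℕ) : ∀ {N M : Type w'} [L.Structure N] [L.Structure M]
    {K : ℕ → (N → M → Prop) → Prop} {K' : ℕ → (M → N → Prop) → Prop}
    (_ : System (L := L) K K') (G : N → M → Prop), K m G → ∀ (v : α → N) (w : α → M),
    (∀ a, G (v a) (w a)) → ∀ (n : ℕ) (φ : L.BoundedFormula α n) (xs : Fin n → N) (ys : Fin n → M),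
    (∀ i, G (xs i) (ys i)) →
    (Q true m n φ → φ.Realize v xs → φ.Realize w ys) ∧
    (Q false m n φ → φ.Realize w ys → φ.Realize v xs) := by
  induction m with
  | zero =>
    intro N M _ _ K K' S G hG v w hv n φ xs ys hx
    have hI := S.iso _ _ hG
    exact ⟨fun h => (hI.qf hv h hx).1, fun h => (hI.qf hv h hx).2⟩
  | succ m ih =>
    intro N M _ _ K K' S G hG v w hv n φ xs ys hx
    constructor
    · intro h
      rw [Q_succ] at h
      induction h generalizing G with
      | base h0 =>
        exact (ih S.symm (flip G) (S.down _ _ hG) w v hv _ _ ys xs hx).2 h0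
      | ex _ _ ih2 =>
        intro hr
        rw [BoundedFormula.realize_ex] at hr ⊢
        obtain ⟨x, hr⟩ := hr
        obtain ⟨G', hG', hle, y, hy⟩ := S.forth _ _ hG x
        exact ⟨y, ih2 G' hG' (fun a => hle _ _ (hv a)) _ _
          (snocG (fun i => hle _ _ (hx i)) hy) hr⟩
      | all hb _ _ => exact absurd hb (by simp)
    · intro h
      rw [Q_succ] at h
      induction h generalizing G with
      | base h0 =>
        exact (ih S.symm (flip G) (S.down _ _ hG) w v hv _ _ ys xs hx).1 h0
      | ex hb _ _ => exact absurd hb (by simp)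
      | all _ _ ih2 =>
        intro hr
        rw [BoundedFormula.realize_all] at hr ⊢
        intro x
        obtain ⟨G', hG', hle, y, hy⟩ := S.forth _ _ hG x
        exact ih2 G' hG' (fun a => hle _ _ (hv a)) _ _
          (snocG (fun i => hle _ _ (hx i)) hy) (hr y)

/-- Exact transfer: a relation lying in all classes preserves all formulas. -/
theorem System.exact {N M : Type w'} [L.Structure N] [L.Structure M] [Nonempty N] [Nonempty M]
    {K : ℕ → (N → M → Prop) → Prop} {K' : ℕ → (M → N → Prop) → Prop}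
    (S : System (L := L) K K') (G : N → M → Prop) (hG : ∀ m, K m G) (v : α → N) (w : α → M)
    (hv : ∀ a, G (v a) (w a)) (φ : L.Formula α) : φ.Realize v ↔ φ.Realize w := by
  obtain ⟨m, hm⟩ := Q_of_isPrenex φ.toPrenex_isPrenex
  have h := System.transfer (α := α) m S G (hG m) v w hv 0 φ.toPrenex default default
    (fun i => i.elim0)
  have e1 := BoundedFormula.realize_toPrenex (M := N) φ (v := v) (xs := default)
  have e2 := BoundedFormula.realize_toPrenex (M := M) φ (v := w) (xs := default)
  unfold Formula.Realize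
  rw [← e1, ← e2]
  exact ⟨h.1 (hm m le_rfl true), h.2 (hm m le_rfl false)⟩

end Pool.Agent.Lib.MP_0da53c_lc
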